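import Mathlib
import Pool.Agent.L7h19.RP.Stm
import Pool.Agent.H474R2.PG.MertensF
import Pool.Agent.H373R2.T7.Fund
import Pool.Agent.W262.RK.Bas

/-!
# Upper bound sieve in a residue class, for the values of irreducible polynomials

Part of project RP (helper19, MP_157626_nt): the analogue of `Pool.Agent.W358.RK2.SVR` (linear forms).
-/

set_option autoImplicit false

namespace Pool.Agent.L7h89.RP

open Finset Polynomial Pool.Agent.W262.RK
open Pool.Agent.H474R2.PG (rho)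

lemma eval_congr (f : ℤ[X]) {d a b : ℤ} (h : d ∣ a - b) : d ∣ f.eval a ↔ d ∣ f.eval b := by
  have h1 : a - b ∣ f.eval a - f.eval b := sub_dvd_eval_sub a b f
  have h2 := h.trans h1
  constructor
  · intro h3
    have h4 := dvd_sub h3 h2
    simpa using h4
  · intro h3
    have h4 := dvd_add h2 h3
    simpa using h4

lemma card_range_zmod (p : ℕ) [NeZero p] (P : ZMod p → Prop) [DecidablePred P] :
    ((range p).filter (fun n : ℕ => P (n : ZMod p))).card = (univ.filter P).card := by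
  apply card_bij (fun (n : ℕ) _ => (n : ZMod p))
  · intro n hn
    exact mem_filter.2 ⟨mem_univ _, (mem_filter.1 hn).2⟩
  · intro a ha b hb hab
    have ha' := mem_range.1 (mem_filter.1 ha).1
    have hb' := mem_range.1 (mem_filter.1 hb).1
    have := (ZMod.natCast_eq_natCast_iff' a b p).1 hab
    rwa [Nat.mod_eq_of_lt ha', Nat.mod_eq_of_lt hb'] at this
  · intro x hx
    refine ⟨x.val, ?_, ?_⟩
    · rw [mem_filter, mem_range]
      refine ⟨ZMod.val_lt x, ?_⟩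
      rw [ZMod.natCast_val, ZMod.cast_id]
      exact (mem_filter.1 hx).2
    · rw [ZMod.natCast_val, ZMod.cast_id]

/-- an affine change of the variable does not change the number of the classes -/
lemma affine_card (p : ℕ) (hp : p.Prime) (P : ℤ → Prop) [DecidablePred P]
    (hP : ∀ a b : ℤ, (p : ℤ) ∣ a - b → (P a ↔ P b)) (r m : ℤ) (hm : ¬ (p : ℤ) ∣ m) :
    ((range p).filter (fun n : ℕ => P (r + m * ((n : ℤ) - 1)))).card =
      ((range p).filter (fun n : ℕ => P (n : ℤ))).card := by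
  classical
  have : Fact p.Prime := ⟨hp⟩
  have hm' : (m : ZMod p) ≠ 0 := fun h => hm ((ZMod.intCast_zmod_eq_zero_iff_dvd _ _).1 h)
  set P' : ZMod p → Prop := fun x => P (x.val : ℤ) with hP'
  have key : ∀ a : ℤ, P' (a : ZMod p) ↔ P a := by
    intro a
    rw [hP']
    apply hP
    rw [← ZMod.intCast_zmod_eq_zero_iff_dvd]
    push_cast
    rw [ZMod.natCast_val, ZMod.cast_id, sub_self]
  have h1 : ((range p).filter (fun n : ℕ => P (n : ℤ))).card = (univ.filter P').card := by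
    rw [← card_range_zmod p P']
    congr 1
    apply filter_congr
    intro n _
    rw [← key]
    simp
  have h2 : ((range p).filter (fun n : ℕ => P (r + m * ((n : ℤ) - 1)))).card =
      (univ.filter (fun x : ZMod p => P' ((r : ZMod p) + (m : ZMod p) * (x - 1)))).card := by
    rw [← card_range_zmod p (fun x : ZMod p => P' ((r : ZMod p) + (m : ZMod p) * (x - 1)))]
    congr 1
    apply filter_congr
    intro n _
    rw [← key]
    push_cast
    rfl
  rw [h1, h2]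
  apply card_bij (fun x _ => (r : ZMod p) + (m : ZMod p) * (x - 1))
  · intro x hx
    exact mem_filter.2 ⟨mem_univ _, (mem_filter.1 hx).2⟩
  · intro x _ y _ hxy
    have h3 : (m : ZMod p) * (x - 1) = (m : ZMod p) * (y - 1) := add_left_cancel hxy
    have h4 := mul_left_cancel₀ hm' h3
    exact sub_left_injective h4
  · intro y hy
    have e : (r : ZMod p) + (m : ZMod p) * ((y - r) / m + 1 - 1) = y := by
      rw [add_sub_cancel_right, mul_div_cancel₀ _ hm']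
      ring
    refine ⟨(y - r) / m + 1, ?_, e⟩
    rw [mem_filter]
    refine ⟨mem_univ _, ?_⟩
    rw [e]
    exact (mem_filter.1 hy).2

variable {J : Type} [Fintype J] [DecidableEq J]

set_option linter.unusedSectionVars false

/-- the number of the classes modulo `p` in which one of the polynomials vanishes -/
lemma card_roots (f : J → ℤ[X]) (p : ℕ)
    (hcop : ∀ j l, j ≠ l → ∀ t : ℤ, (p : ℤ) ∣ (f j).eval t → ¬ (p : ℤ) ∣ (f l).eval t) :
    ((range p).filter (fun n : ℕ => ∃ j, (p : ℤ) ∣ (f j).eval (n : ℤ))).card =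
      ∑ j, rho (f j) p := by
  classical
  have h1 : (range p).filter (fun n : ℕ => ∃ j, (p : ℤ) ∣ (f j).eval (n : ℤ)) =
      univ.biUnion (fun j => (range p).filter (fun n : ℕ => (p : ℤ) ∣ (f j).eval (n : ℤ))) := by
    ext n
    rw [mem_filter, mem_biUnion]
    constructor
    · rintro ⟨h, j, hj⟩
      exact ⟨j, mem_univ _, mem_filter.2 ⟨h, hj⟩⟩
    · rintro ⟨j, -, hj⟩
      exact ⟨(mem_filter.1 hj).1, j, (mem_filter.1 hj).2⟩
  rw [h1, card_biUnion]
  · rfl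
  · intro j _ l _ hjl
    rw [Function.onFun, disjoint_left]
    intro n hn hn'
    exact hcop j l hjl _ (mem_filter.1 hn).2 (mem_filter.1 hn').2

/-- Mertens: the product over the sieving primes -/
lemma prod_le (f : J → ℤ[X]) (c z : ℕ) (hirr : ∀ j, Irreducible (f j))
    (hpos : ∀ j, 0 < (f j).natDegree) (hz : 2 * c + 2 ≤ z)
    (hrho : ∀ p : ℕ, p.Prime → z < p → ∑ j, rho (f j) p ≤ c) :
    ∃ C : ℝ, 0 < C ∧ ∀ y : ℕ, 3 ≤ y → z < y →
      ∏ p ∈ PS z y, (1 - ((∑ j, rho (f j) p : ℕ) : ℝ) / p) ≤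
        C / (Real.log y) ^ (Fintype.card J) := by
  have hM : ∀ j, ∃ C : ℝ, ∀ w : ℝ, 3 ≤ w → Real.log (Real.log w) - C ≤
      Pool.Agent.H474R2.PG.Sg (rho (f j)) w := fun j =>
    Pool.Agent.H474R2.PG.mertens_lower (f j) (hirr j) (hpos j)
  choose C0 hC0 using hM
  set S0 : J → ℝ := fun j => ∑ p ∈ (Finset.Icc 1 z).filter Nat.Prime, (rho (f j) p : ℝ) / p with hS0
  refine ⟨Real.exp (∑ j, (C0 j + S0 j)), Real.exp_pos _, fun y hy hzy => ?_⟩
  have hyr : (3 : ℝ) ≤ y := by exact_mod_cast hy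
  have hl1 : 1 < Real.log y := by
    rw [Real.lt_log_iff_exp_lt (by linarith)]
    have := Real.exp_one_lt_d9
    linarith
  have hsplit : ∀ j, Pool.Agent.H474R2.PG.Sg (rho (f j)) y =
      S0 j + ∑ p ∈ PS z y, (rho (f j) p : ℝ) / p := by
    intro j
    unfold Pool.Agent.H474R2.PG.Sg Pool.Agent.H474R2.PG.PR
    rw [hS0, Nat.floor_natCast]
    simp only
    rw [← sum_union]
    · congr 1
      ext p
      rw [mem_union, mem_filter, mem_filter, mem_Icc, mem_Icc, mem_PS]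
      constructor
      · rintro ⟨⟨h1, h2⟩, h3⟩
        rcases Nat.lt_or_ge z p with h | h
        · exact Or.inr ⟨⟨h, h2⟩, h3⟩
        · exact Or.inl ⟨⟨h1, h⟩, h3⟩
      · rintro (⟨⟨h1, h2⟩, h3⟩ | ⟨⟨h1, h2⟩, h3⟩)
        · exact ⟨⟨h1, by omega⟩, h3⟩
        · exact ⟨⟨by omega, h2⟩, h3⟩
    · rw [disjoint_left]
      intro p hp hp'
      rw [mem_filter, mem_Icc] at hp
      rw [mem_PS] at hp'
      omega
  have h1 : ∏ p ∈ PS z y, (1 - ((∑ j, rho (f j) p : ℕ) : ℝ) / p) ≤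
      ∏ p ∈ PS z y, Real.exp (-(((∑ j, rho (f j) p : ℕ) : ℝ) / p)) := by
    apply prod_le_prod
    · intro p hp
      have hp' := (mem_PS.1 hp).1.1
      have hp0 : (0 : ℝ) < p := by exact_mod_cast (mem_PS.1 hp).2.pos
      have hr := hrho p (mem_PS.1 hp).2 hp'
      have hcp : ((∑ j, rho (f j) p : ℕ) : ℝ) ≤ p := by exact_mod_cast (by omega : ∑ j, rho (f j) p ≤ p)
      rw [sub_nonneg, div_le_one hp0]
      exact hcp
    · intro p _
      have := Real.add_one_le_exp (-(((∑ j, rho (f j) p : ℕ) : ℝ) / p))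
      linarith
  refine h1.trans ?_
  rw [← Real.exp_sum, sum_neg_distrib]
  have h2 : ∑ p ∈ PS z y, ((∑ j, rho (f j) p : ℕ) : ℝ) / p =
      ∑ j, ∑ p ∈ PS z y, (rho (f j) p : ℝ) / p := by
    rw [sum_comm]
    refine sum_congr rfl fun p _ => ?_
    rw [Nat.cast_sum, sum_div]
  rw [h2]
  have h3 : ∀ j, Real.log (Real.log y) - C0 j - S0 j ≤ ∑ p ∈ PS z y, (rho (f j) p : ℝ) / p := by
    intro j
    have h4 := hC0 j y hyr
    rw [hsplit j] at h4
    linarith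
  have h5 : ∑ j, (Real.log (Real.log y) - C0 j - S0 j) ≤
      ∑ j, ∑ p ∈ PS z y, (rho (f j) p : ℝ) / p := sum_le_sum fun j _ => h3 j
  have h6 : ∑ j : J, (Real.log (Real.log y) - C0 j - S0 j) =
      (Fintype.card J : ℝ) * Real.log (Real.log y) - ∑ j, (C0 j + S0 j) := by
    rw [← card_univ, ← nsmul_eq_mul, ← sum_const, ← sum_sub_distrib]
    exact sum_congr rfl fun j _ => by ring
  rw [h6] at h5
  have h4 : Real.log y ^ (Fintype.card J) =
      Real.exp ((Fintype.card J : ℝ) * Real.log (Real.log y)) := by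
    rw [← Real.log_pow, Real.exp_log (by positivity)]
  rw [h4, ← Real.exp_sub]
  apply Real.exp_le_exp.2
  linarith

/-- the sieving condition -/
def QP (f : J → ℤ[X]) (z y : ℕ) (r : ℤ) (m : ℕ) (p n : ℕ) : Prop :=
  p ∈ PS z y ∧ ¬ p ∣ m ∧ ∃ j, (p : ℤ) ∣ (f j).eval (r + m * ((n : ℤ) - 1))

lemma QP_per (f : J → ℤ[X]) (z y : ℕ) (r : ℤ) (m p n : ℕ) :
    QP f z y r m p n ↔ QP f z y r m p (n % p) := by
  unfold QP
  have h1 : (p : ℤ) ∣ (r + m * ((n : ℤ) - 1)) - (r + m * (((n % p : ℕ) : ℤ) - 1)) := by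
    have h2 : (p : ℤ) ∣ (n : ℤ) - ((n % p : ℕ) : ℤ) := by
      push_cast
      exact Int.dvd_self_sub_emod
    have e : (r + m * ((n : ℤ) - 1)) - (r + m * (((n % p : ℕ) : ℤ) - 1)) =
        m * ((n : ℤ) - ((n % p : ℕ) : ℤ)) := by ring
    rw [e]
    exact h2.mul_left _
  constructor
  · rintro ⟨a, b, j, hj⟩
    exact ⟨a, b, j, (eval_congr (f j) h1).1 hj⟩
  · rintro ⟨a, b, j, hj⟩
    exact ⟨a, b, j, (eval_congr (f j) h1).2 hj⟩

open Classical in
lemma count_le (f : J → ℤ[X]) (z y X m r : ℕ) :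
    ((Icc 1 X).filter (fun t : ℕ => t ≡ r [MOD m] ∧ ∀ p ∈ PS z y, ¬ p ∣ m →
      ∀ j, ¬ (p : ℤ) ∣ (f j).eval (t : ℤ))).card ≤
      ((Icc 1 (X / m + 1)).filter
        (fun n : ℕ => ∀ p ∈ Pool.Agent.H373R2.T7.pz y,
          ¬ QP f z y ((r % m : ℕ) : ℤ) m p n)).card := by
  apply card_le_card_of_injOn (fun t => t / m + 1)
  · intro t ht
    have ht' := Finset.mem_coe.1 ht
    have htX := mem_Icc.1 (mem_filter.1 ht').1
    obtain ⟨hmod, hnd⟩ := (mem_filter.1 ht').2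
    rw [Finset.mem_coe, mem_filter, mem_Icc]
    refine ⟨⟨Nat.le_add_left 1 _, Nat.succ_le_succ (Nat.div_le_div_right htX.2)⟩, fun p _ hQ => ?_⟩
    obtain ⟨hpPS, hpm, j, hj⟩ := hQ
    have e : ((r % m : ℕ) : ℤ) + (m : ℤ) * (((t / m + 1 : ℕ) : ℤ) - 1) = (t : ℤ) := by
      have h1 : t % m = r % m := hmod
      rw [← h1]
      have := Nat.mod_add_div t m
      push_cast
      zify at this
      linarith
    rw [e] at hj
    exact hnd p hpPS hpm j hj
  · intro a ha b hb hab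
    have ha' : a % m = r % m := (mem_filter.1 (Finset.mem_coe.1 ha)).2.1
    have hb' : b % m = r % m := (mem_filter.1 (Finset.mem_coe.1 hb)).2.1
    simp only at hab
    have h1 : a / m = b / m := by omega
    rw [← Nat.mod_add_div a m, ← Nat.mod_add_div b m, ha', hb', h1]

set_option maxHeartbeats 1000000 in
/-- upper bound sieve in a residue class, for the values of irreducible polynomials -/
theorem psv (f : J → ℤ[X]) (c z : ℕ) (hirr : ∀ j, Irreducible (f j))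
    (hpos : ∀ j, 0 < (f j).natDegree) (hz : 2 * c + 2 ≤ z)
    (hrho : ∀ p : ℕ, p.Prime → z < p → ∑ j, rho (f j) p ≤ c)
    (hcop : ∀ p : ℕ, p.Prime → z < p → ∀ j l, j ≠ l → ∀ t : ℤ, (p : ℤ) ∣ (f j).eval t →
      ¬ (p : ℤ) ∣ (f l).eval t) :
    ∃ (C : ℝ) (K y0 : ℕ), 0 ≤ C ∧ 1 ≤ K ∧ ∀ X y : ℕ, y0 ≤ y → z < y → y ^ K ≤ X →
    ∀ m r : ℕ, 1 ≤ m → m ^ 4 ≤ X →
    (((Icc 1 X).filter (fun t : ℕ => t ≡ r [MOD m] ∧ ∀ p ∈ PS z y, ¬ p ∣ m →
      ∀ j, ¬ (p : ℤ) ∣ (f j).eval (t : ℤ))).card : ℝ) ≤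
      C * (X / m) * (∏ p ∈ m.primeFactors.filter (fun p => p ∈ PS z y),
        (p : ℝ) / ((p : ℝ) - c)) / (Real.log y) ^ (Fintype.card J) := by
  classical
  obtain ⟨K', x0', hK', hF⟩ := Pool.Agent.H373R2.T7.sys_fund (c + 1) (by omega) 1 one_pos
  obtain ⟨C1, hC1, hP⟩ := prod_le f c z hirr hpos hz hrho
  obtain ⟨κ, hκ⟩ : ∃ κ, κ = Fintype.card J := ⟨_, rfl⟩
  rw [← hκ] at hP ⊢
  refine ⟨4 * C1 + 1, 2 * (K' + κ), max x0' 3, by positivity, by omega,
    fun X y hy hzy hyX m r hm1 hmX4 => ?_⟩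
  have hy0 : x0' ≤ y := (le_max_left _ _).trans hy
  have hy3 : 3 ≤ y := (le_max_right _ _).trans hy
  have hmpos : 0 < m := hm1
  have hm0 : m ≠ 0 := hmpos.ne'
  have hr := count_le f z y X m r
  have hnu : ∀ p ∈ PS z y, ¬ p ∣ m →
      Pool.Agent.H373R2.T7.nuB (QP f z y ((r % m : ℕ) : ℤ) m) p = ∑ j, rho (f j) p := by
    intro p hp hpm
    have hpp := (mem_PS.1 hp).2
    rw [← card_roots f p (hcop p hpp (mem_PS.1 hp).1.1)]
    rw [← affine_card p hpp (fun t : ℤ => ∃ j, (p : ℤ) ∣ (f j).eval t) ?_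
      ((r % m : ℕ) : ℤ) (m : ℤ) (fun h => hpm (Int.natCast_dvd_natCast.1 h))]
    · unfold Pool.Agent.H373R2.T7.nuB
      congr 1
      apply filter_congr
      intro n _
      unfold QP
      exact ⟨fun h => h.2.2, fun h => ⟨hp, hpm, h⟩⟩
    · intro a b hab
      constructor
      · rintro ⟨j, hj⟩
        exact ⟨j, (eval_congr (f j) hab).1 hj⟩
      · rintro ⟨j, hj⟩
        exact ⟨j, (eval_congr (f j) hab).2 hj⟩
  have hnu0 : ∀ p, ¬ (p ∈ PS z y ∧ ¬ p ∣ m) →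
      Pool.Agent.H373R2.T7.nuB (QP f z y ((r % m : ℕ) : ℤ) m) p = 0 := by
    intro p hp
    unfold Pool.Agent.H373R2.T7.nuB
    rw [card_eq_zero, filter_eq_empty_iff]
    intro n _ hn
    exact hp ⟨hn.1, hn.2.1⟩
  have hPer : Pool.Agent.H373R2.T7.PerB (QP f z y ((r % m : ℕ) : ℤ) m) (c + 1) := by
    refine ⟨fun p n => QP_per f z y _ m p n, fun p hpp => ?_⟩
    by_cases h : p ∈ PS z y ∧ ¬ p ∣ m
    · rw [hnu p h.1 h.2]
      exact (hrho p hpp (mem_PS.1 h.1).1.1).trans (Nat.le_succ c)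
    · rw [hnu0 p h]
      exact Nat.zero_le _
  have hfund := hF (y ^ K') y hy0 le_rfl (QP f z y ((r % m : ℕ) : ℤ) m) hPer (X / m + 1)
  obtain ⟨g, hg⟩ : ∃ g : ℕ → ℝ, g = fun p => 1 - ((∑ j, rho (f j) p : ℕ) : ℝ) / p := ⟨_, rfl⟩
  have hprod : ∏ p ∈ Pool.Agent.H373R2.T7.pz y,
      (1 - ((Pool.Agent.H373R2.T7.nuB (QP f z y ((r % m : ℕ) : ℤ) m) p : ℕ) : ℝ) / p) =
      ∏ p ∈ (PS z y).filter (fun p => ¬ p ∣ m), g p := by
    have h1 : ∏ p ∈ (PS z y).filter (fun p => ¬ p ∣ m),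
        (1 - ((Pool.Agent.H373R2.T7.nuB (QP f z y ((r % m : ℕ) : ℤ) m) p : ℕ) : ℝ) / p) =
        ∏ p ∈ Pool.Agent.H373R2.T7.pz y,
      (1 - ((Pool.Agent.H373R2.T7.nuB (QP f z y ((r % m : ℕ) : ℤ) m) p : ℕ) : ℝ) / p) := by
      apply prod_subset
      · intro p hp
        rw [mem_filter, mem_PS] at hp
        exact Pool.Agent.H373R2.T7.mem_pz.2 ⟨hp.1.1.2, hp.1.2⟩
      · intro p _ hp
        rw [mem_filter] at hp
        rw [hnu0 p hp]
        simp
    rw [← h1]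
    refine prod_congr rfl fun p hp => ?_
    rw [mem_filter] at hp
    rw [hnu p hp.1 hp.2, hg]
  rw [hprod] at hfund
  obtain ⟨A, hA⟩ : ∃ A : ℝ, A = ∏ p ∈ (PS z y).filter (fun p => ¬ p ∣ m), g p :=
    ⟨_, rfl⟩
  obtain ⟨B, hB⟩ : ∃ B : ℝ, B = ∏ p ∈ m.primeFactors.filter (fun p => p ∈ PS z y), g p :=
    ⟨_, rfl⟩
  obtain ⟨D, hD⟩ : ∃ D : ℝ, D = ∏ p ∈ m.primeFactors.filter (fun p => p ∈ PS z y),
    ((p : ℝ) / ((p : ℝ) - c)) := ⟨_, rfl⟩
  have hzc : ∀ p ∈ PS z y, (c : ℝ) + 1 ≤ p := by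
    intro p hp
    have h1 := (mem_PS.1 hp).1.1
    exact_mod_cast (by omega : c + 1 ≤ p)
  have hgc : ∀ p ∈ PS z y, 1 - (c : ℝ) / p ≤ g p := by
    intro p hp
    have hp0 : (0 : ℝ) < p := by exact_mod_cast (mem_PS.1 hp).2.pos
    rw [hg]
    simp only
    have h1 : ((∑ j, rho (f j) p : ℕ) : ℝ) ≤ c := by
      exact_mod_cast hrho p (mem_PS.1 hp).2 (mem_PS.1 hp).1.1
    have h2 : ((∑ j, rho (f j) p : ℕ) : ℝ) / p ≤ (c : ℝ) / p :=
      div_le_div_of_nonneg_right h1 hp0.le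
    linarith
  have hcpos : ∀ p ∈ PS z y, 0 < 1 - (c : ℝ) / p := by
    intro p hp
    have h1 := hzc p hp
    have hp0 : (0 : ℝ) < p := by exact_mod_cast (mem_PS.1 hp).2.pos
    rw [sub_pos, div_lt_one hp0]
    linarith
  have hfpos : ∀ p ∈ PS z y, 0 < g p := fun p hp => lt_of_lt_of_le (hcpos p hp) (hgc p hp)
  have hApos : 0 < A := by
    rw [hA]; exact prod_pos fun p hp => hfpos p (mem_filter.1 hp).1
  have hBpos : 0 < B := by
    rw [hB]; exact prod_pos fun p hp => hfpos p (mem_filter.1 hp).2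
  have hAB : A * B = ∏ p ∈ PS z y, g p := by
    have h1 : m.primeFactors.filter (fun p => p ∈ PS z y) = (PS z y).filter (fun p => ¬ ¬ p ∣ m) := by
      ext p
      rw [mem_filter, mem_filter, not_not]
      constructor
      · rintro ⟨hp, hp2⟩
        exact ⟨hp2, Nat.dvd_of_mem_primeFactors hp⟩
      · rintro ⟨h2, h3⟩
        exact ⟨Nat.mem_primeFactors.2 ⟨(mem_PS.1 h2).2, h3, hm0⟩, h2⟩
    rw [hA, hB, h1]
    exact prod_filter_mul_prod_filter_not _ _ _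
  have hDB : 1 ≤ D * B := by
    rw [hD, hB, ← prod_mul_distrib]
    have h1 : ∀ p ∈ m.primeFactors.filter (fun p => p ∈ PS z y),
        (1 : ℝ) ≤ (p : ℝ) / ((p : ℝ) - c) * g p := by
      intro p hp
      have hpP := (mem_filter.1 hp).2
      have h1 := hzc p hpP
      have hp0 : (0 : ℝ) < p := by exact_mod_cast (mem_PS.1 hpP).2.pos
      have h2 : 0 < (p : ℝ) - c := by linarith
      calc (1 : ℝ) = (p : ℝ) / ((p : ℝ) - c) * (1 - (c : ℝ) / p) := by field_simp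
        _ ≤ _ := mul_le_mul_of_nonneg_left (hgc p hpP) (by positivity)
    calc (1 : ℝ) = ∏ p ∈ m.primeFactors.filter (fun p => p ∈ PS z y), (1 : ℝ) := by
          rw [prod_const_one]
      _ ≤ _ := prod_le_prod (fun _ _ => zero_le_one) h1
  have hD1 : 1 ≤ D := by
    rw [hD]
    have h1 : ∀ p ∈ m.primeFactors.filter (fun p => p ∈ PS z y),
        (1 : ℝ) ≤ (p : ℝ) / ((p : ℝ) - c) := by
      intro p hp
      have h1 := hzc p (mem_filter.1 hp).2
      have h2 : 0 < (p : ℝ) - c := by linarith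
      rw [le_div_iff₀ h2]
      have : (0 : ℝ) ≤ c := Nat.cast_nonneg c
      linarith
    calc (1 : ℝ) = ∏ p ∈ m.primeFactors.filter (fun p => p ∈ PS z y), (1 : ℝ) := by
          rw [prod_const_one]
      _ ≤ _ := prod_le_prod (fun _ _ => zero_le_one) h1
  have hDpos : 0 < D := by linarith
  have hAle : A ≤ (C1 / (Real.log y) ^ κ) * D := by
    have h1 : A ≤ (A * B) * D := by
      calc A = A * 1 := (mul_one A).symm
        _ ≤ A * (D * B) := mul_le_mul_of_nonneg_left hDB hApos.le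
        _ = _ := by ring
    refine h1.trans ?_
    rw [hAB, hg]
    exact mul_le_mul_of_nonneg_right (hP y hy3 hzy) hDpos.le
  have hyr : (3 : ℝ) ≤ y := by exact_mod_cast hy3
  have hl1 : 1 < Real.log y := by
    rw [Real.lt_log_iff_exp_lt (by linarith)]
    have := Real.exp_one_lt_d9
    linarith
  have hly : Real.log y ≤ y := by
    have := Real.log_le_sub_one_of_pos (by linarith : (0 : ℝ) < y)
    linarith
  have hLpos : 0 < (Real.log y) ^ κ := by positivity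
  have hmX : m * y ^ (K' + κ) ≤ X := by
    have h1 : (m * y ^ (K' + κ)) ^ 4 ≤ X ^ 4 := by
      calc (m * y ^ (K' + κ)) ^ 4 = m ^ 4 * (y ^ (K' + κ)) ^ 4 := by rw [mul_pow]
        _ ≤ m ^ 4 * (y ^ (K' + κ)) ^ 6 := by
          apply Nat.mul_le_mul_left
          exact Nat.pow_le_pow_right (pow_pos (by omega) _) (by norm_num)
        _ = m ^ 4 * (y ^ (2 * (K' + κ))) ^ 3 := by ring
        _ ≤ X * X ^ 3 := Nat.mul_le_mul hmX4 (Nat.pow_le_pow_left hyX 3)
        _ = X ^ 4 := by ring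
    exact (Nat.pow_le_pow_iff_left (by norm_num)).1 h1
  have hmr : (0 : ℝ) < m := by exact_mod_cast hmpos
  have hcnt : (((Icc 1 X).filter (fun t : ℕ => t ≡ r [MOD m] ∧ ∀ p ∈ PS z y, ¬ p ∣ m →
      ∀ j, ¬ (p : ℤ) ∣ (f j).eval (t : ℤ))).card : ℝ) ≤
      2 * (((X / m + 1 : ℕ) : ℝ) * A) + √((y ^ K' : ℕ) : ℝ) := by
    have h1 : (((Icc 1 X).filter (fun t : ℕ => t ≡ r [MOD m] ∧ ∀ p ∈ PS z y, ¬ p ∣ m →
        ∀ j, ¬ (p : ℤ) ∣ (f j).eval (t : ℤ))).card : ℝ) ≤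
      (((Icc 1 (X / m + 1)).filter
        (fun n : ℕ => ∀ p ∈ Pool.Agent.H373R2.T7.pz y,
          ¬ QP f z y ((r % m : ℕ) : ℤ) m p n)).card : ℝ) := by
      exact_mod_cast hr
    have h2 := (abs_le.1 hfund).2
    rw [one_mul, ← hA] at h2
    linarith
  have hX' : ((X / m + 1 : ℕ) : ℝ) ≤ 2 * (X / m) := by
    have hmX' : m ≤ X := by
      refine le_trans ?_ hmX
      exact Nat.le_mul_of_pos_right _ (pow_pos (by omega) _)
    have h1 : (X / m + 1) * m ≤ 2 * X := by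
      have := Nat.div_mul_le_self X m
      rw [add_mul, one_mul]
      omega
    have h2 : ((X / m + 1 : ℕ) : ℝ) * m ≤ 2 * X := by exact_mod_cast h1
    rw [← mul_div_assoc, le_div_iff₀ hmr]
    exact h2
  have hsq : √((y ^ K' : ℕ) : ℝ) ≤ (X / m) * D / (Real.log y) ^ κ := by
    have h1 : (1 : ℝ) ≤ ((y ^ K' : ℕ) : ℝ) := by
      exact_mod_cast Nat.one_le_iff_ne_zero.2 (pow_ne_zero _ (by omega))
    have h2 : √((y ^ K' : ℕ) : ℝ) ≤ ((y ^ K' : ℕ) : ℝ) := by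
      rw [Real.sqrt_le_left (by linarith)]
      nlinarith
    refine h2.trans ?_
    rw [le_div_iff₀ hLpos]
    have h3 : (Real.log y) ^ κ ≤ (y : ℝ) ^ κ := pow_le_pow_left₀ (by linarith) hly _
    have h4 : (m : ℝ) * (y : ℝ) ^ (K' + κ) ≤ X := by exact_mod_cast hmX
    have h5 : (y : ℝ) ^ (K' + κ) ≤ X / m := by
      rw [le_div_iff₀ hmr, mul_comm]
      exact h4
    push_cast
    calc (y : ℝ) ^ K' * (Real.log y) ^ κ ≤ (y : ℝ) ^ K' * (y : ℝ) ^ κ :=
          mul_le_mul_of_nonneg_left h3 (by positivity)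
      _ = (y : ℝ) ^ (K' + κ) := by rw [pow_add]
      _ ≤ X / m := h5
      _ = (X / m) * 1 := (mul_one _).symm
      _ ≤ (X / m) * D := mul_le_mul_of_nonneg_left hD1 (by positivity)
  have hmain : 2 * (((X / m + 1 : ℕ) : ℝ) * A) ≤ 4 * C1 * (X / m) * D / (Real.log y) ^ κ := by
    calc 2 * (((X / m + 1 : ℕ) : ℝ) * A) ≤
        2 * ((2 * (X / m)) * ((C1 / (Real.log y) ^ κ) * D)) := by gcongr
      _ = _ := by ring
  rw [← hD]
  calc (((Icc 1 X).filter (fun t : ℕ => t ≡ r [MOD m] ∧ ∀ p ∈ PS z y, ¬ p ∣ m →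
      ∀ j, ¬ (p : ℤ) ∣ (f j).eval (t : ℤ))).card : ℝ)
      ≤ 2 * (((X / m + 1 : ℕ) : ℝ) * A) + √((y ^ K' : ℕ) : ℝ) := hcnt
    _ ≤ 4 * C1 * (X / m) * D / (Real.log y) ^ κ + (X / m) * D / (Real.log y) ^ κ :=
        add_le_add hmain hsq
    _ = (4 * C1 + 1) * (X / m) * D / (Real.log y) ^ κ := by ring

end Pool.Agent.L7h89.RP
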