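import Mathlib
import Pool.Agent.L7h89.RP.Psv
import Pool.Agent.W372.RK2.CNT4

/-!
# Project RP (helper19, MP_157626_nt), part 2: `StCnt`

The number of `t` in a residue class with given small prime factors and given signs of the values of
irreducible polynomials. The analogue of `Pool.Agent.W372.RK2.CNT4` (linear forms).
-/

set_option autoImplicit false

namespace Pool.Agent.L7h89.RP

open Finset Polynomial Pool.Agent.W262.RK Pool.Agent.W307.RT Pool.Agent.L7h19.RP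
open Pool.Agent.H474R2.PG (rho)
open Pool.Agent.W372.RK2 (mem_Tup' sq_pow_dvd card_W mj prod_gw)

variable {J : Type} [Fintype J] [DecidableEq J]

set_option linter.unusedSectionVars false

/-- the values of the polynomials -/
def vl (f : J → ℤ[X]) (t : ℤ) (j : J) : ℤ := (f j).eval t

lemma uniq {f h : J → ℤ[X]} {c z : ℕ} (hB : BgP f h c z) {t : ℤ} {p : ℕ} (hp : p.Prime)
    (hz : z < p) {j l : J} (hj : (p : ℤ) ∣ vl f t j) (hl : (p : ℤ) ∣ vl f t l) : j = l := by
  by_contra hne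
  exact hB.cop p hp hz j l hne t hj hl

lemma dvd_S1 {F : J → ℤ} {z y : ℕ} {j : J} {p : ℕ} (hp : p.Prime) :
    p ∣ S1 z y F j ↔ p ∈ PS z y ∧ (p : ℤ) ∣ F j ∧ ¬ (p : ℤ) ^ 2 ∣ F j := by
  unfold S1
  constructor
  · intro h
    obtain ⟨q, hq, hpq⟩ := (hp.prime.dvd_finsetProd_iff _).1 h
    rw [mem_filter] at hq
    rw [(Nat.prime_dvd_prime_iff_eq hp (mem_PS.1 hq.1).2).1 hpq]
    exact hq
  · intro h
    exact dvd_prod_of_mem _ (mem_filter.2 h)

lemma dvd_S2 {F : J → ℤ} {z y : ℕ} {j : J} {p : ℕ} (hp : p.Prime) :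
    p ∣ S2 z y F j ↔ p ∈ PS z y ∧ (p : ℤ) ^ 2 ∣ F j := by
  unfold S2
  constructor
  · intro h
    obtain ⟨q, hq, hpq⟩ := (hp.prime.dvd_finsetProd_iff _).1 h
    rw [mem_filter] at hq
    rw [(Nat.prime_dvd_prime_iff_eq hp (mem_PS.1 hq.1).2).1 hpq]
    exact hq
  · intro h
    exact dvd_prod_of_mem _ (mem_filter.2 h)

/-- a simple root modulo `p` has only one lift modulo `p ^ 2` with a given value -/
lemma lift_unique (f : ℤ[X]) {p : ℕ} (hp : p.Prime) {t t' : ℤ}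
    (hd : ¬ (p : ℤ) ∣ (derivative f).eval t) (ht : (p : ℤ) ∣ t' - t)
    (hf : (p : ℤ) ^ 2 ∣ f.eval t' - f.eval t) : (p : ℤ) ^ 2 ∣ t' - t := by
  obtain ⟨k, hk⟩ := f.binomExpansion t (t' - t)
  rw [add_sub_cancel] at hk
  have h1 : (p : ℤ) ^ 2 ∣ k * (t' - t) ^ 2 := (pow_dvd_pow_of_dvd ht 2).mul_left _
  have h2 : (p : ℤ) ^ 2 ∣ (derivative f).eval t * (t' - t) := by
    have h3 := dvd_sub hf h1
    have e : f.eval t' - f.eval t - k * (t' - t) ^ 2 = (derivative f).eval t * (t' - t) := by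
      rw [hk]
      ring
    rwa [e] at h3
  have h3 : IsCoprime ((p : ℤ) ^ 2) ((derivative f).eval t) := by
    apply IsCoprime.pow_left
    rw [Int.isCoprime_iff_gcd_eq_one, Int.gcd_eq_natAbs, Int.natAbs_natCast]
    exact (hp.coprime_iff_not_dvd).2 fun h => hd (Int.natCast_dvd.2 h)
  exact h3.dvd_of_dvd_mul_left h2

/-- the facts about the counted `t` -/
structure Good (f : J → ℤ[X]) (z y : ℕ) (s v u : J → ℕ) (t : ℤ) : Prop where
  hs : S1 z y (vl f t) = s
  hv : S2 z y (vl f t) = v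
  hu : ∀ j, (u j : ℤ) ∣ vl f t j

variable {f h : J → ℤ[X]} {c z y Y : ℕ} {s v u : J → ℕ} {t : ℤ} {T : J → Fin 4}

lemma Good.fs (g : Good f z y s v u t) {p : ℕ} (hp : p.Prime) {j : J} (h : p ∣ s j) :
    p ∈ PS z y ∧ (p : ℤ) ∣ vl f t j ∧ ¬ (p : ℤ) ^ 2 ∣ vl f t j := by
  rw [← g.hs] at h
  exact (dvd_S1 hp).1 h

lemma Good.fv (g : Good f z y s v u t) {p : ℕ} (hp : p.Prime) {j : J} (h : p ∣ v j) :
    p ∈ PS z y ∧ (p : ℤ) ^ 2 ∣ vl f t j := by
  rw [← g.hv] at h
  exact (dvd_S2 hp).1 h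

lemma Good.fu (g : Good f z y s v u t) (hu : u ∈ Tup J y Y) {p : ℕ} (hp : p.Prime) {j : J}
    (h : p ∣ u j) : y < p ∧ (p : ℤ) ∣ vl f t j :=
  ⟨(dv_prime ((mem_Tup'.1 hu).1 j) hp h).1, (Int.natCast_dvd_natCast.2 h).trans (g.hu j)⟩

lemma Good.fmj (g : Good f z y s v u t) (hu : u ∈ Tup J y Y) (hzy : z < y) {p : ℕ}
    (hp : p.Prime) {j : J} (h : p ∣ mj T s v u j) : z < p ∧ (p : ℤ) ∣ vl f t j := by
  unfold mj at h
  have hs : p ∣ s j → z < p ∧ (p : ℤ) ∣ vl f t j := fun h' =>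
    ⟨(mem_PS.1 (g.fs hp h').1).1.1, (g.fs hp h').2.1⟩
  rcases hp.dvd_mul.1 h with h | h
  · rcases hp.dvd_mul.1 h with h | h
    · rcases hp.dvd_mul.1 h with h | h
      · exact hs h
      · split_ifs at h
        · exact hs h
        · exact absurd (Nat.dvd_one.1 h) hp.one_lt.ne'
    · have h' := g.fv hp (hp.dvd_of_dvd_pow h)
      exact ⟨(mem_PS.1 h'.1).1.1, (dvd_pow_self (p : ℤ) two_ne_zero).trans h'.2⟩
  · have h' := g.fu hu hp h
    exact ⟨hzy.trans h'.1, h'.2⟩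

/-- two counted `t` with the same residues are congruent -/
lemma congr_of (hB : BgP f h c z) (hzy : z < y) (hs : s ∈ Tup J z y) (hv : v ∈ Tup J z y)
    (hu : u ∈ Tup J y Y) {t t' : ℤ} (g : Good f z y s v u t) (g' : Good f z y s v u t')
    (h1 : ((∏ j, s j : ℕ) : ℤ) ∣ t' - t)
    (h3 : ∀ j, T j = 3 → ∀ p : ℕ, p.Prime → p ∣ s j →
      (p : ℤ) ^ 2 ∣ vl f t' j - vl f t j)
    (h2 : ∀ j, ∀ p : ℕ, p.Prime → p ∣ v j * u j → (p : ℤ) ∣ t' - t) :
    ((∏ j, mj T s v u j : ℕ) : ℤ) ∣ t' - t := by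
  have hs' := (mem_Tup'.1 hs).1
  have hv' := (mem_Tup'.1 hv).1
  have hu' := (mem_Tup'.1 hu).1
  rw [Nat.cast_prod]
  apply Finset.prod_dvd_of_coprime
  · intro j _ l _ hjl
    rw [Function.onFun, Nat.isCoprime_iff_coprime]
    apply Nat.coprime_of_dvd
    intro p hp hpj hpl
    have h1 := g.fmj hu hzy hp hpj
    have h2 := g.fmj hu hzy hp hpl
    exact hjl (uniq hB hp h1.1 h1.2 h2.2)
  intro j _
  have hsj : ((s j : ℕ) : ℤ) ∣ t' - t :=
    (Int.natCast_dvd_natCast.2 (dvd_prod_of_mem s (mem_univ j))).trans h1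
  have h5 : ((s j * (if T j = 3 then s j else 1) : ℕ) : ℤ) ∣ t' - t := by
    split_ifs with hc
    · have h := sq_pow_dvd (dv_squarefree (hs' j)) 2 (t' - t)
        (fun p hp hpd => by
          have g1 := g.fs hp hpd
          exact lift_unique (f j) hp (hB.simple p hp (mem_PS.1 g1.1).1.1 j t g1.2.1)
            ((Int.natCast_dvd_natCast.2 hpd).trans hsj) (h3 j hc p hp hpd))
      rw [sq] at h
      exact_mod_cast h
    · rw [mul_one]
      exact hsj
  have h6 : ((v j ^ 2 : ℕ) : ℤ) ∣ t' - t := by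
    have h := sq_pow_dvd (dv_squarefree (hv' j)) 2 (t' - t)
      (fun p hp hpd => by
        have g1 := g.fv hp hpd
        have g2 := g'.fv hp hpd
        exact lift_unique (f j) hp (hB.simple p hp (mem_PS.1 g1.1).1.1 j t
          ((dvd_pow_self (p : ℤ) two_ne_zero).trans g1.2))
          (h2 j p hp (hpd.mul_right _)) (dvd_sub g2.2 g1.2))
    exact_mod_cast h
  have h7 : ((u j : ℕ) : ℤ) ∣ t' - t := by
    have h := sq_pow_dvd (dv_squarefree (hu' j)) 1 (t' - t)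
      (fun p hp hpd => by
        rw [pow_one]
        exact h2 j p hp (hpd.mul_left _))
    rwa [pow_one] at h
  have hcop1 : IsCoprime ((s j * (if T j = 3 then s j else 1) : ℕ) : ℤ)
      ((v j ^ 2 : ℕ) : ℤ) := by
    rw [Nat.isCoprime_iff_coprime]
    apply Nat.coprime_of_dvd
    intro p hp hps hpv
    have hps' : p ∣ s j := by
      rcases hp.dvd_mul.1 hps with h | h
      · exact h
      · split_ifs at h
        · exact h
        · exact absurd (Nat.dvd_one.1 h) hp.one_lt.ne'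
    exact (g.fs hp hps').2.2 (g.fv hp (hp.dvd_of_dvd_pow hpv)).2
  have hcop2 : IsCoprime ((s j * (if T j = 3 then s j else 1) * v j ^ 2 : ℕ) : ℤ)
      ((u j : ℕ) : ℤ) := by
    rw [Nat.isCoprime_iff_coprime]
    apply Nat.coprime_of_dvd
    intro p hp hps hpu
    have h8 : y < p := (g.fu hu hp hpu).1
    have h9 : p ≤ y := by
      rcases hp.dvd_mul.1 hps with h | h
      · rcases hp.dvd_mul.1 h with h | h
        · exact (dv_prime (hs' j) hp h).2
        · split_ifs at h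
          · exact (dv_prime (hs' j) hp h).2
          · exact absurd (Nat.dvd_one.1 h) hp.one_lt.ne'
      · exact (dv_prime (hv' j) hp (hp.dvd_of_dvd_pow h)).2
    omega
  unfold mj
  rw [Nat.cast_mul]
  refine hcop2.mul_dvd ?_ h7
  rw [Nat.cast_mul]
  exact hcop1.mul_dvd h5 h6

/-- the product over the primes of the modulus -/
lemma prod_primes (hB : BgP f h c z) (hs : s ∈ Tup J z y) (hv : v ∈ Tup J z y)
    (hu : u ∈ Tup J y Y) (g : Good f z y s v u t) :
    ∏ p ∈ (∏ j, mj T s v u j).primeFactors.filter (fun p => p ∈ PS z y),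
      (p : ℝ) / ((p : ℝ) - c) =
    ∏ j, ((s j * gw 1 c (s j)) * (v j * gw 1 c (v j))) := by
  have hs' := (mem_Tup'.1 hs).1
  have hv' := (mem_Tup'.1 hv).1
  have key : ∀ j p, p ∈ (s j).primeFactors ∪ (v j).primeFactors →
      p.Prime ∧ z < p ∧ (p : ℤ) ∣ vl f t j := by
    intro j p hp
    rcases mem_union.1 hp with hp | hp
    · have h1 := Nat.prime_of_mem_primeFactors hp
      have h2 := g.fs h1 (Nat.dvd_of_mem_primeFactors hp)
      exact ⟨h1, (mem_PS.1 h2.1).1.1, h2.2.1⟩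
    · have h1 := Nat.prime_of_mem_primeFactors hp
      have h2 := g.fv h1 (Nat.dvd_of_mem_primeFactors hp)
      exact ⟨h1, (mem_PS.1 h2.1).1.1, (dvd_pow_self (p : ℤ) two_ne_zero).trans h2.2⟩
  rw [Pool.Agent.W372.RK2.mj_primes hs hv hu, prod_biUnion]
  · apply prod_congr rfl
    intro j _
    rw [prod_union, prod_gw (hs' j), prod_gw (hv' j)]
    rw [Finset.disjoint_left]
    intro p h1 h2
    have hp := Nat.prime_of_mem_primeFactors h1
    exact (g.fs hp (Nat.dvd_of_mem_primeFactors h1)).2.2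
      (g.fv hp (Nat.dvd_of_mem_primeFactors h2)).2
  · intro j _ l _ hjl
    rw [Function.onFun, Finset.disjoint_left]
    intro p h1 h2
    have h3 := key j p h1
    have h4 := key l p h2
    exact hjl (uniq hB h3.1 h3.2.1 h3.2.2 h4.2.2)

lemma exists_j3 {p : ℕ} (hp : p ∈ P3 T s) : ∃ j, T j = 3 ∧ p ∣ s j := by
  unfold P3 at hp
  have h1 := Nat.prime_of_mem_primeFactors hp
  obtain ⟨j, hj, h⟩ := (h1.prime.dvd_finsetProd_iff _).1 (Nat.dvd_of_mem_primeFactors hp)
  exact ⟨j, (mem_filter.1 hj).2, h⟩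

/-- the form of the class `3` divisible by `p` -/
noncomputable def j3 (T : J → Fin 4) (s : J → ℕ) (p : P3 T s) : J :=
  (exists_j3 p.2).choose

/-- the residues of the quotients -/
noncomputable def Phi (f : J → ℤ[X]) (T : J → Fin 4) (s : J → ℕ) (t : ℤ) (p : P3 T s) : ℕ :=
  ((vl f t (j3 T s p) / (p.1 : ℤ)) % (p.1 : ℤ)).toNat

/-- the residues with the prescribed symbol -/
def WH (E : Finset ℕ) (a : ℤ) (p : ℕ) : Finset ℕ :=
  (range p).filter (fun x : ℕ => jacobiSym (a * x) p = if p ∈ E then -1 else 1)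

/-- the values of the multipliers -/
noncomputable def hval (h : J → ℤ[X]) (T : J → Fin 4) (s : J → ℕ) (r : ℤ) (p : P3 T s) : ℤ :=
  (h (j3 T s p)).eval r

lemma Phi_mem (hB : BgP f h c z) {r : ℤ} (hr : ((∏ j, s j : ℕ) : ℤ) ∣ t - r)
    (g : Good f z y s v u t) {E : Finset ℕ} (hE : negP T f h t s = E) :
    Phi f T s t ∈ Fintype.piFinset (fun p : P3 T s => WH E (hval h T s r p) p.1) := by
  classical
  rw [Fintype.mem_piFinset]
  rintro ⟨p, hp3⟩
  have hp : p.Prime := Nat.prime_of_mem_primeFactors hp3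
  obtain ⟨hc, hps⟩ : T (j3 T s ⟨p, hp3⟩) = 3 ∧ p ∣ s (j3 T s ⟨p, hp3⟩) :=
    (exists_j3 hp3).choose_spec
  unfold WH Phi hval
  simp only
  set j := j3 T s ⟨p, hp3⟩ with hj
  obtain ⟨hP, hd, hd2⟩ := g.fs hp hps
  have hpos : (0 : ℤ) < p := by exact_mod_cast hp.pos
  have hdr : (p : ℤ) ∣ t - r :=
    (Int.natCast_dvd_natCast.2 (hps.trans (dvd_prod_of_mem s (mem_univ j)))).trans hr
  have hhr : (p : ℤ) ∣ (h j).eval t - (h j).eval r := hdr.trans (sub_dvd_eval_sub t r (h j))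
  have hht : ¬ (p : ℤ) ∣ (h j).eval t := hB.hcop p hp (mem_PS.1 hP).1.1 j t hd
  have h0 : 0 ≤ (vl f t j / (p : ℤ)) % (p : ℤ) := Int.emod_nonneg _ hpos.ne'
  have hsym : jacobiSym ((h j).eval r * ((vl f t j / (p : ℤ)) % (p : ℤ))) p =
      jacobiSym ((h j).eval t * (vl f t j / (p : ℤ))) p := by
    rw [jacobiSym.mod_left ((h j).eval r * _), jacobiSym.mod_left ((h j).eval t * _)]
    congr 1
    apply Int.emod_emod_of_dvd _ (dvd_refl _) |>.symm.trans
    rw [Int.emod_emod_of_dvd _ (dvd_refl _)]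
    apply Int.ModEq.mul
    · exact (Int.modEq_iff_dvd).2 hhr
    · exact Int.mod_modEq _ _
  rw [mem_filter, mem_range]
  constructor
  · have h1 := Int.emod_lt_of_pos (vl f t j / (p : ℤ)) hpos
    omega
  · rw [Int.toNat_of_nonneg h0, hsym]
    split_ifs with hpE
    · rw [← hE] at hpE
      unfold negP at hpE
      rw [mem_filter] at hpE
      obtain ⟨-, l, -, hpl, hl⟩ := hpE
      have hjl : j = l := uniq hB hp (mem_PS.1 hP).1.1 hd (g.fs hp hpl).2.1
      rw [hjl]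
      exact hl
    · have h1 : jacobiSym ((h j).eval t * (vl f t j / (p : ℤ))) p ≠ -1 := by
        intro h'
        apply hpE
        rw [← hE]
        unfold negP
        exact mem_filter.2 ⟨hp3, j, hc, hps, h'⟩
      have h2 : jacobiSym ((h j).eval t * (vl f t j / (p : ℤ))) p ≠ 0 := by
        have : NeZero p := ⟨hp.ne_zero⟩
        rw [Ne, jacobiSym.eq_zero_iff_not_coprime, not_not, Int.gcd_comm]
        rw [Int.gcd_eq_natAbs, Int.natAbs_natCast]
        apply (hp.coprime_iff_not_dvd).2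
        intro h'
        have h3 : (p : ℤ) ∣ (h j).eval t * (vl f t j / (p : ℤ)) := Int.natCast_dvd.2 h'
        rcases (Nat.prime_iff_prime_int.1 hp).dvd_mul.1 h3 with h4 | h4
        · exact hht h4
        · apply hd2
          have h5 : vl f t j = p * (vl f t j / p) := (Int.mul_ediv_cancel' hd).symm
          rw [h5, sq]
          exact mul_dvd_mul_left _ h4
      rcases jacobiSym.trichotomy ((h j).eval t * (vl f t j / (p : ℤ))) p with h' | h' | h'
      · exact absurd h' h2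
      · exact h'
      · exact absurd h' h1

lemma Phi_congr (hB : BgP f h c z) (hs : s ∈ Tup J z y) {t t' : ℤ} (g : Good f z y s v u t)
    (g' : Good f z y s v u t') (hPhi : Phi f T s t' = Phi f T s t) (j : J)
    (hj : T j = 3) (p : ℕ) (hp : p.Prime) (hps : p ∣ s j) :
    (p : ℤ) ^ 2 ∣ vl f t' j - vl f t j := by
  have hs' := (mem_Tup'.1 hs).1
  have hp3 : p ∈ P3 T s := by
    unfold P3
    rw [Nat.mem_primeFactors]
    refine ⟨hp, hps.trans (dvd_prod_of_mem _ (mem_filter.2 ⟨mem_univ j, hj⟩)), ?_⟩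
    exact prod_ne_zero_iff.2 fun i _ => dv_ne_zero (hs' i)
  obtain ⟨hc, hps'⟩ : T (j3 T s ⟨p, hp3⟩) = 3 ∧ p ∣ s (j3 T s ⟨p, hp3⟩) :=
    (exists_j3 hp3).choose_spec
  have h1 := congrFun hPhi ⟨p, hp3⟩
  unfold Phi at h1
  simp only at h1
  have h2 : j3 T s ⟨p, hp3⟩ = j :=
    uniq hB hp (mem_PS.1 (g.fs hp hps).1).1.1 (g.fs hp hps').2.1 (g.fs hp hps).2.1
  rw [h2] at h1
  have hpos : (0 : ℤ) < p := by exact_mod_cast hp.pos
  have h3 : (vl f t' j / (p : ℤ)) % (p : ℤ) = (vl f t j / (p : ℤ)) % (p : ℤ) := by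
    have h4 := Int.emod_nonneg (vl f t j / (p : ℤ)) hpos.ne'
    have h5 := Int.emod_nonneg (vl f t' j / (p : ℤ)) hpos.ne'
    omega
  have h6 : (p : ℤ) ∣ vl f t' j / (p : ℤ) - vl f t j / (p : ℤ) :=
    Int.ModEq.dvd (Eq.symm h3)
  have h7 : vl f t j = p * (vl f t j / p) := (Int.mul_ediv_cancel' (g.fs hp hps).2.1).symm
  have h8 : vl f t' j = p * (vl f t' j / p) := (Int.mul_ediv_cancel' (g'.fs hp hps).2.1).symm
  rw [h7, h8, ← mul_sub, sq]
  exact mul_dvd_mul_left _ h6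

lemma card_WH {p : ℕ} (hp : p.Prime) (hp2 : p ≠ 2) (E : Finset ℕ) {a : ℤ}
    (ha : ¬ (p : ℤ) ∣ a) : 2 * (WH E a p).card ≤ p := by
  have : NeZero p := ⟨hp.ne_zero⟩
  have ha' : jacobiSym a p = 1 ∨ jacobiSym a p = -1 := by
    rcases jacobiSym.trichotomy a p with h | h | h
    · exfalso
      rw [jacobiSym.eq_zero_iff_not_coprime, Int.gcd_comm, Int.gcd_eq_natAbs,
        Int.natAbs_natCast] at h
      apply h
      exact (hp.coprime_iff_not_dvd).2 fun h' => ha (Int.natCast_dvd.2 h')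
    · exact Or.inl h
    · exact Or.inr h
  have he : ∀ e : ℤ, (e = 1 ∨ e = -1) → ∃ e' : ℤ, (e' = 1 ∨ e' = -1) ∧
      ∀ x : ℤ, jacobiSym (a * x) p = e ↔ jacobiSym x p = e' := by
    intro e he
    refine ⟨jacobiSym a p * e, ?_, ?_⟩
    · rcases ha' with h1 | h1 <;> rcases he with h2 | h2 <;> rw [h1, h2] <;> simp
    · intro x
      rw [jacobiSym.mul_left]
      rcases ha' with h1 | h1 <;> rw [h1]
      · simp
      · constructor
        · intro h2
          linarith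
        · intro h2
          linarith
  obtain ⟨e', he', hx⟩ := he (if p ∈ E then -1 else 1) (by split_ifs <;> simp)
  have h1 : WH E a p = (range p).filter (fun x : ℕ => jacobiSym x p = e') := by
    unfold WH
    apply filter_congr
    intro x _
    exact hx x
  have h2 := card_W hp hp2 e' he'
  rw [h1]
  omega

lemma card_Phi (hB : BgP f h c z) (hs : s ∈ Tup J z y) {r : ℤ}
    (hr : ∀ j, (s j : ℤ) ∣ (f j).eval r) (E : Finset ℕ) :
    ((Fintype.piFinset (fun p : P3 T s => WH E (hval h T s r p) p.1)).card : ℝ) ≤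
      (1 / 2) ^ (P3 T s).card * ∏ j, ((if T j = 3 then s j else 1 : ℕ) : ℝ) := by
  have hs' := (mem_Tup'.1 hs).1
  have hz : 2 ≤ z := by have := hB.le_z; omega
  rw [Fintype.card_piFinset, Nat.cast_prod]
  have h1 : ∀ p : P3 T s, (((WH E (hval h T s r p) p.1).card : ℕ) : ℝ) ≤ (1 / 2) * (p.1 : ℝ) := by
    rintro ⟨p, hp3⟩
    have hp := Nat.prime_of_mem_primeFactors hp3
    obtain ⟨hc, hps⟩ : T (j3 T s ⟨p, hp3⟩) = 3 ∧ p ∣ s (j3 T s ⟨p, hp3⟩) :=
      (exists_j3 hp3).choose_spec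
    have hzp := (dv_prime (hs' _) hp hps).1
    have h2 := card_WH hp (by omega) E (a := hval h T s r ⟨p, hp3⟩)
      (hB.hcop p hp hzp _ r ((Int.natCast_dvd_natCast.2 hps).trans (hr _)))
    have h4 : (2 : ℝ) * ((WH E (hval h T s r ⟨p, hp3⟩) p).card : ℝ) ≤ p := by exact_mod_cast h2
    simp only
    linarith
  refine (prod_le_prod (fun _ _ => Nat.cast_nonneg _) fun p _ => h1 p).trans ?_
  rw [prod_mul_distrib, prod_const, card_univ, Fintype.card_coe]
  apply mul_le_mul_of_nonneg_left _ (by positivity)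
  rw [prod_coe_sort (P3 T s) (fun p => (p : ℝ))]
  rw [← Nat.cast_prod, ← Nat.cast_prod, Nat.cast_le]
  rw [← prod_filter (fun j => T j = 3) s]
  unfold P3
  apply Nat.le_of_dvd
  · exact prod_pos fun i _ => dv_pos (hs' i)
  · exact Nat.prod_primeFactors_dvd _

/-- the primes of `v` and `u`, with the polynomials -/
def Ix (v u : J → ℕ) : Finset (Σ _ : J, ℕ) := univ.sigma (fun j => (v j * u j).primeFactors)

/-- the roots of a polynomial modulo `p` -/
noncomputable def roots (f : ℤ[X]) (p : ℕ) : Finset ℕ :=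
  (range p).filter (fun a : ℕ => (p : ℤ) ∣ f.eval (a : ℤ))

lemma card_roots' (f : ℤ[X]) (p : ℕ) : (roots f p).card = rho f p := rfl

/-- the residues modulo the primes of `v` and `u` -/
def Psi (v u : J → ℕ) (t : ℕ) (i : Ix v u) : ℕ := t % i.1.2

lemma Psi_mem (hv : v ∈ Tup J z y) (hu : u ∈ Tup J y Y) {t : ℕ} (g : Good f z y s v u (t : ℤ)) :
    Psi v u t ∈ Fintype.piFinset (fun i : Ix v u => roots (f i.1.1) i.1.2) := by
  rw [Fintype.mem_piFinset]
  rintro ⟨⟨j, p⟩, hi⟩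
  unfold Ix at hi
  rw [mem_sigma] at hi
  have hp := Nat.prime_of_mem_primeFactors hi.2
  have hd := Nat.dvd_of_mem_primeFactors hi.2
  unfold Psi roots
  simp only
  rw [mem_filter, mem_range]
  refine ⟨Nat.mod_lt _ hp.pos, ?_⟩
  have h1 : (p : ℤ) ∣ (f j).eval (t : ℤ) := by
    rcases hp.dvd_mul.1 hd with h | h
    · exact (dvd_pow_self (p : ℤ) two_ne_zero).trans (g.fv hp h).2
    · exact (g.fu hu hp h).2
  refine (eval_congr (f j) ?_).2 h1
  push_cast
  have h2 : (p : ℤ) ∣ (t : ℤ) - (t : ℤ) % (p : ℤ) := Int.dvd_self_sub_emod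
  have h3 := (dvd_neg.2 h2)
  rwa [neg_sub] at h3

lemma Psi_congr {t t' : ℕ} (hv : v ∈ Tup J z y) (hu : u ∈ Tup J y Y)
    (hPsi : Psi v u t' = Psi v u t) (j : J) (p : ℕ) (hp : p.Prime) (hpd : p ∣ v j * u j) :
    (p : ℤ) ∣ (t' : ℤ) - (t : ℤ) := by
  have hi : (⟨j, p⟩ : Σ _ : J, ℕ) ∈ Ix v u := by
    unfold Ix
    rw [mem_sigma]
    refine ⟨mem_univ _, Nat.mem_primeFactors.2 ⟨hp, hpd, ?_⟩⟩
    exact mul_ne_zero (dv_ne_zero ((mem_Tup'.1 hv).1 j)) (dv_ne_zero ((mem_Tup'.1 hu).1 j))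
  have h1 := congrFun hPsi ⟨⟨j, p⟩, hi⟩
  unfold Psi at h1
  simp only at h1
  exact (Nat.modEq_iff_dvd.1 (show t ≡ t' [MOD p] from h1.symm))

lemma card_Psi (hzy : z < y) (hv : v ∈ Tup J z y) (hu : u ∈ Tup J y Y) :
    ((Fintype.piFinset (fun i : Ix v u => roots (f i.1.1) i.1.2)).card : ℝ) =
      ∏ j, ((∏ p ∈ (v j).primeFactors, (rho (f j) p : ℝ)) *
        ∏ p ∈ (u j).primeFactors, (rho (f j) p : ℝ)) := by
  rw [Fintype.card_piFinset, Nat.cast_prod]
  have h1 : ∏ i : Ix v u, (((roots (f i.1.1) i.1.2).card : ℕ) : ℝ) =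
      ∏ i ∈ Ix v u, (rho (f i.1) i.2 : ℝ) :=
    prod_coe_sort (Ix v u) (fun i => (rho (f i.1) i.2 : ℝ))
  rw [h1]
  unfold Ix
  rw [prod_sigma]
  apply prod_congr rfl
  intro j _
  simp only
  rw [Nat.primeFactors_mul (dv_ne_zero ((mem_Tup'.1 hv).1 j)) (dv_ne_zero ((mem_Tup'.1 hu).1 j)),
    prod_union]
  rw [disjoint_left]
  intro p hp1 hp2
  have h2 := (dv_prime ((mem_Tup'.1 hv).1 j) (Nat.prime_of_mem_primeFactors hp1)
    (Nat.dvd_of_mem_primeFactors hp1)).2
  have h3 := (dv_prime ((mem_Tup'.1 hu).1 j) (Nat.prime_of_mem_primeFactors hp2)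
    (Nat.dvd_of_mem_primeFactors hp2)).1
  omega

lemma gr_eq (f : ℤ[X]) (c n : ℕ) :
    gr f c n = (∏ p ∈ n.primeFactors, (rho f p : ℝ)) * gw 1 c n := by
  unfold gr gw
  rw [← prod_mul_distrib]
  apply prod_congr rfl
  intro p _
  ring

lemma ru_eq (f : ℤ[X]) {n : ℕ} (hn : Squarefree n) :
    ru f n = (∏ p ∈ n.primeFactors, (rho f p : ℝ)) / n := by
  unfold ru
  have h1 : (n : ℝ) = ∏ p ∈ n.primeFactors, (p : ℝ) := by
    rw [← Nat.cast_prod, Nat.prod_primeFactors_of_squarefree hn]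
  conv_rhs => rw [h1]
  rw [prod_div_distrib]

set_option maxHeartbeats 1000000 in
theorem stCnt : StCnt := by
  classical
  intro J _ _ T f h c z hB
  obtain ⟨C, K, y0, hC, hK, hSV⟩ := psv f c z hB.irr hB.pos hB.le_z hB.rho_le hB.cop
  refine ⟨C, K, y0, hC, hK, ?_⟩
  intro X y Y hy0 hzy hX s hs v hv u hu hsvu r E hr
  have hs' := (mem_Tup'.1 hs).1
  have hv' := (mem_Tup'.1 hv).1
  have hu' := (mem_Tup'.1 hu).1
  have hz : 2 ≤ z := by have := hB.le_z; omega
  have hc : c ≤ z := by have := hB.le_z; omega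
  have hlog : 0 ≤ (Real.log y) ^ (Fintype.card J) := pow_nonneg (Real.log_natCast_nonneg y) _
  set S := (Icc 1 X).filter (fun t : ℕ => (t : ℤ) ≡ r [ZMOD ((∏ j, s j : ℕ) : ℤ)] ∧
      S1 z y (fun j => (f j).eval (t : ℤ)) = s ∧ S2 z y (fun j => (f j).eval (t : ℤ)) = v ∧
      (∀ j, (u j : ℤ) ∣ (f j).eval (t : ℤ)) ∧ negP T f h t s = E) with hT
  have hgood : ∀ t ∈ S, Good f z y s v u (t : ℤ) ∧ negP T f h t s = E ∧
      ((∏ j, s j : ℕ) : ℤ) ∣ (t : ℤ) - r := by
    intro t ht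
    rw [hT, mem_filter] at ht
    exact ⟨⟨ht.2.2.1, ht.2.2.2.1, ht.2.2.2.2.1⟩, ht.2.2.2.2.2,
      (Int.modEq_iff_dvd).1 ht.2.1.symm⟩
  have hgs : ∀ j, 0 ≤ gw 1 c (s j) := fun j => gw_nonneg zero_le_one hc (hs' j)
  have hgv : ∀ j, 0 ≤ gw 1 c (v j) := fun j => gw_nonneg zero_le_one hc (hv' j)
  rcases S.eq_empty_or_nonempty with hTe | ⟨t0, ht0⟩
  · rw [hTe, card_empty, Nat.cast_zero]
    apply div_nonneg _ hlog
    have h1 : 0 ≤ ∏ j, gw 1 c (s j) := prod_nonneg fun j _ => hgs j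
    have h2 : 0 ≤ ∏ j, gr (f j) c (v j) / v j := prod_nonneg fun j _ => by
      rw [gr_eq]
      have := hgv j
      positivity
    have h3 : 0 ≤ ∏ j, ru (f j) (u j) := prod_nonneg fun j _ => by
      unfold ru
      positivity
    positivity
  set m := ∏ j, mj T s v u j with hm
  have hmj1 : ∀ j, 1 ≤ mj T s v u j := by
    intro j
    unfold mj
    have h1 := dv_pos (hs' j)
    have h2 := dv_pos (hv' j)
    have h3 := dv_pos (hu' j)
    have h4 : 0 < (if T j = 3 then s j else 1) := by split_ifs <;> omega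
    exact Nat.succ_le_of_lt (by positivity)
  have hm1 : 1 ≤ m := Nat.succ_le_of_lt (prod_pos fun j _ => hmj1 j)
  have hm4 : m ^ 4 ≤ X := by
    refine le_trans ?_ hsvu
    have h1 : m ≤ (∏ j, s j * v j * u j) ^ 2 := by
      rw [← prod_pow]
      apply prod_le_prod'
      intro j _
      unfold mj
      have h1 := dv_pos (hs' j)
      have h3 := dv_pos (hu' j)
      have h4 : (if T j = 3 then s j else 1) ≤ s j := by split_ifs <;> omega
      calc s j * (if T j = 3 then s j else 1) * v j ^ 2 * u j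
          ≤ s j * s j * v j ^ 2 * (u j * u j) := by
            apply Nat.mul_le_mul
            · exact Nat.mul_le_mul_right _ (Nat.mul_le_mul_left _ h4)
            · nlinarith
        _ = (s j * v j * u j) ^ 2 := by ring
    calc m ^ 4 ≤ ((∏ j, s j * v j * u j) ^ 2) ^ 4 := Nat.pow_le_pow_left h1 4
      _ = (∏ j, s j * v j * u j) ^ 8 := by rw [← pow_mul]
  have hsq := (hgood t0 ht0).1
  -- bound for a fibre
  set B : ℝ := C * (X / m) * (∏ p ∈ m.primeFactors.filter (fun p => p ∈ PS z y),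
        (p : ℝ) / ((p : ℝ) - c)) / (Real.log y) ^ (Fintype.card J) with hBdef
  have hB0 : 0 ≤ B := le_trans (Nat.cast_nonneg _) (hSV X y hy0 hzy hX m 0 hm1 hm4)
  set K1 := Fintype.piFinset (fun p : P3 T s => WH E (hval h T s r p) p.1) with hK1
  set K2 := Fintype.piFinset (fun i : Ix v u => roots (f i.1.1) i.1.2) with hK2
  set key : ℕ → (P3 T s → ℕ) × (Ix v u → ℕ) :=
    fun t => (Phi f T s (t : ℤ), Psi v u t) with hkey
  have hfib : ∀ φ : (P3 T s → ℕ) × (Ix v u → ℕ),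
      ((S.filter (fun t : ℕ => key t = φ)).card : ℝ) ≤ B := by
    intro φ
    rcases (S.filter (fun t : ℕ => key t = φ)).eq_empty_or_nonempty with
      he | ⟨r0, hr0⟩
    · rw [he, card_empty, Nat.cast_zero]
      exact hB0
    · refine le_trans ?_ (hSV X y hy0 hzy hX m r0 hm1 hm4)
      rw [Nat.cast_le]
      apply card_le_card
      intro t ht
      rw [mem_filter] at ht hr0
      have g := (hgood t ht.1).1
      have g' := (hgood r0 hr0.1).1
      have htX : t ∈ Icc 1 X := (mem_filter.1 ht.1).1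
      have hk : key r0 = key t := hr0.2.trans ht.2.symm
      have hk1 : Phi f T s (r0 : ℤ) = Phi f T s (t : ℤ) := congrArg Prod.fst hk
      have hk2 : Psi v u r0 = Psi v u t := congrArg Prod.snd hk
      rw [mem_filter]
      refine ⟨htX, ?_, ?_⟩
      · have h0 : ((∏ j, s j : ℕ) : ℤ) ∣ (r0 : ℤ) - (t : ℤ) := by
          have h3 := dvd_sub (hgood r0 hr0.1).2.2 (hgood t ht.1).2.2
          rwa [sub_sub_sub_cancel_right] at h3
        have h1 := congr_of (T := T) hB hzy hs hv hu g g' h0 (fun j hj p hp hps =>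
          Phi_congr hB hs g g' hk1 j hj p hp hps) (fun j p hp hpd =>
          Psi_congr hv hu hk2 j p hp hpd)
        rw [← hm] at h1
        exact Nat.modEq_iff_dvd.2 h1
      · intro p hpP hpm j hpf
        have hp := (mem_PS.1 hpP).2
        apply hpm
        rw [hm]
        refine Dvd.dvd.trans ?_ (dvd_prod_of_mem _ (mem_univ j))
        unfold mj
        by_cases h2 : (p : ℤ) ^ 2 ∣ vl f t j
        · have h3 : p ∣ v j := by
            rw [← g.hv]
            exact (dvd_S2 hp).2 ⟨hpP, h2⟩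
          exact (((h3.pow two_ne_zero).mul_left _).mul_right _)
        · have h3 : p ∣ s j := by
            rw [← g.hs]
            exact (dvd_S1 hp).2 ⟨hpP, hpf, h2⟩
          exact (((h3.mul_right _).mul_right _).mul_right _)
  have hcard : (S.card : ℝ) ≤ ((K1.card : ℝ) * (K2.card : ℝ)) * B := by
    rw [card_eq_sum_card_fiberwise (f := key) (t := K1 ×ˢ K2)
      (fun t ht => mem_product.2 ⟨Phi_mem hB (hgood t ht).2.2 (hgood t ht).1 (hgood t ht).2.1,
        Psi_mem hv hu (hgood t ht).1⟩)]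
    rw [Nat.cast_sum]
    refine (sum_le_sum fun φ _ => hfib φ).trans ?_
    rw [sum_const, nsmul_eq_mul, card_product, Nat.cast_mul]
  have hK1c := card_Phi (T := T) hB hs hr E
  rw [← hK1] at hK1c
  have hK2c := card_Psi (f := f) hzy hv hu
  rw [← hK2] at hK2c
  have hstep : ((K1.card : ℝ) * (K2.card : ℝ)) * B ≤
      ((1 / 2) ^ (P3 T s).card * (∏ j, ((if T j = 3 then s j else 1 : ℕ) : ℝ)) *
        (K2.card : ℝ)) * B := by
    apply mul_le_mul_of_nonneg_right _ hB0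
    exact mul_le_mul_of_nonneg_right hK1c (Nat.cast_nonneg _)
  refine hcard.trans (hstep.trans ?_)
  rw [hK2c, hBdef, hm, prod_primes hB hs hv hu hsq, Nat.cast_prod]
  have hterm : ∀ j, ((if T j = 3 then s j else 1 : ℕ) : ℝ) *
      ((∏ p ∈ (v j).primeFactors, (rho (f j) p : ℝ)) *
        ∏ p ∈ (u j).primeFactors, (rho (f j) p : ℝ)) * ((s j *
      gw 1 c (s j)) * (v j * gw 1 c (v j))) /
      ((mj T s v u j : ℕ) : ℝ) = gw 1 c (s j) *
      (gr (f j) c (v j) / v j) * ru (f j) (u j) := by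
    intro j
    rw [gr_eq, ru_eq (f j) (dv_squarefree (hu' j))]
    have h1 : (s j : ℝ) ≠ 0 := Nat.cast_ne_zero.2 (dv_ne_zero (hs' j))
    have h2 : (v j : ℝ) ≠ 0 := Nat.cast_ne_zero.2 (dv_ne_zero (hv' j))
    have h3 : (u j : ℝ) ≠ 0 := Nat.cast_ne_zero.2 (dv_ne_zero (hu' j))
    have h4 : ((if T j = 3 then s j else 1 : ℕ) : ℝ) ≠ 0 := by
      split_ifs
      · exact h1
      · simp
    unfold mj
    rw [Nat.cast_mul, Nat.cast_mul, Nat.cast_mul, Nat.cast_pow]
    field_simp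
  have hprod : (∏ j, ((if T j = 3 then s j else 1 : ℕ) : ℝ)) *
      (∏ j, ((∏ p ∈ (v j).primeFactors, (rho (f j) p : ℝ)) *
        ∏ p ∈ (u j).primeFactors, (rho (f j) p : ℝ))) *
      (∏ j, ((s j * gw 1 c (s j)) * (v j * gw 1 c (v j)))) /
      (∏ j, ((mj T s v u j : ℕ) : ℝ)) = (∏ j, gw 1 c (s j)) *
        (∏ j, gr (f j) c (v j) / v j) * (∏ j, ru (f j) (u j)) := by
    rw [← prod_mul_distrib, ← prod_mul_distrib, ← prod_div_distrib, ← prod_mul_distrib,
      ← prod_mul_distrib]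
    exact prod_congr rfl fun j _ => hterm j
  apply le_of_eq
  rw [show C * X * (1 / 2) ^ (P3 T s).card * (∏ j, gw 1 c (s j)) *
        (∏ j, gr (f j) c (v j) / v j) * (∏ j, ru (f j) (u j)) =
      C * X * (1 / 2) ^ (P3 T s).card * ((∏ j, gw 1 c (s j)) *
        (∏ j, gr (f j) c (v j) / v j) * (∏ j, ru (f j) (u j))) by ring, ← hprod]
  ring

end Pool.Agent.L7h89.RP
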