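import Mathlib
import Pool.Agent.L7h19.RP.Defs

/-!
# Project RP, statement StRank: the rank of `y² = x (x - F 0) (x - F 1)` is bounded by the local
count, for arbitrary values of the forms
-/

set_option autoImplicit false
set_option linter.unusedSectionVars false

namespace Pool.Agent.L7h89.RP

open Finset Pool.Agent.W262.RK Pool.Agent.W307.RT Pool.Agent.L7h19.RJ Pool.Agent.L7h19.RP

variable {J : Type}

lemma S1_dvd_iff {z y : ℕ} {f : J → ℤ} {p : ℕ} (hp : p.Prime) {j : J} :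
    p ∣ S1 z y f j ↔ p ∈ PS z y ∧ (p : ℤ) ∣ f j ∧ ¬ (p : ℤ) ^ 2 ∣ f j := by
  unfold S1
  rw [prime_dvd_prodS (fun q hq => (mem_PS.1 (mem_filter.1 hq).1).2) hp, mem_filter]

lemma S1_ne {z y : ℕ} {f : J → ℤ} (j : J) : S1 z y f j ≠ 0 := by
  unfold S1
  exact prod_ne_zero_iff.2 fun q hq => (mem_PS.1 (mem_filter.1 hq).1).2.ne_zero

lemma S1_sqf {z y : ℕ} {f : J → ℤ} (j : J) : Squarefree (S1 z y f j) := by
  have h : S1 z y f j ∣ PP z y := by
    unfold S1 PP
    exact prod_dvd_prod_of_subset _ _ _ (filter_subset _ _)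
  exact (PP_squarefree z y).squarefree_of_dvd h

/-- a prime of `(z, y]` divides at most one of the numbers `S1` -/
lemma S1_uniq {z y : ℕ} {f : J → ℤ} (hG : Gd z f) {p : ℕ} (hp : p.Prime) {j l : J}
    (hj : p ∣ S1 z y f j) (hl : p ∣ S1 z y f l) : l = j := by
  by_contra hne
  have h1 := (S1_dvd_iff hp).1 hj
  have h2 := (S1_dvd_iff hp).1 hl
  exact hG.2 p hp (mem_PS.1 h1.1).1.1 l j hne ⟨h2.2.1, h1.2.1⟩

variable [Fintype J] [DecidableEq J]

lemma mem_fsJ {c : J → Option (Fin 4)} {k : Fin 3} {j : J} :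
    j ∈ fsJ c k ↔ (c j = some k.castSucc ∨ c j = some 3) := by
  unfold fsJ
  rw [mem_filter]
  exact ⟨fun h => h.2, fun h => ⟨mem_univ _, h⟩⟩

/-- products over the other forms are not divisible -/
lemma ndV {a : Fin 3 → ℤ} {x : J → ℤ} {z : ℕ} (hG : Gd z x)
    (hB : ∀ p : ℕ, p.Prime → z < p → ∀ k, ¬ (p : ℤ) ∣ a k) {p : ℕ}
    (hp : p.Prime) (hz : z < p) {j : J} (hj : (p : ℤ) ∣ x j) {k : Fin 3}
    {S : Finset J} (hS : j ∉ S) : ¬ (p : ℤ) ∣ a k * ∏ l ∈ S, x l := by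
  intro h
  have hpi : Prime (p : ℤ) := Nat.prime_iff_prime_int.1 hp
  rcases hpi.dvd_or_dvd h with h1 | h1
  · exact hB p hp hz k h1
  · obtain ⟨l, hl, hl2⟩ := (hpi.dvd_finsetProd_iff _).1 h1
    refine hG.2 p hp hz j l ?_ ⟨hj, hl2⟩
    rintro rfl
    exact hS hl

lemma FV_split {c : J → Option (Fin 4)} {a : Fin 3 → ℤ} {x : J → ℤ} {j : J} {k : Fin 3}
    (hj : j ∈ fsJ c k) : FV c a x k = x j * (a k * ∏ l ∈ (fsJ c k).erase j, x l) := by
  unfold FV
  rw [← mul_prod_erase _ _ hj]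
  ring

lemma dV {c : J → Option (Fin 4)} {a : Fin 3 → ℤ} {x : J → ℤ} {z : ℕ} (hG : Gd z x)
    (hB : ∀ p : ℕ, p.Prime → z < p → ∀ k, ¬ (p : ℤ) ∣ a k) {p : ℕ}
    (hp : p.Prime) (hz : z < p) {j : J} (hj : (p : ℤ) ∣ x j)
    (hj2 : ¬ (p : ℤ) ^ 2 ∣ x j) {k : Fin 3} (hk : j ∈ fsJ c k) :
    (p : ℤ) ∣ FV c a x k ∧ ¬ (p : ℤ) ^ 2 ∣ FV c a x k := by
  have hpi : Prime (p : ℤ) := Nat.prime_iff_prime_int.1 hp
  rw [FV_split hk]
  refine ⟨hj.mul_right _, fun h => hj2 ?_⟩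
  have hco : IsCoprime ((p : ℤ) ^ 2) (a k * ∏ l ∈ (fsJ c k).erase j, x l) :=
    IsCoprime.pow_left ((Prime.coprime_iff_not_dvd hpi).2
      (ndV hG hB hp hz hj (notMem_erase _ _)))
  exact hco.dvd_of_dvd_mul_right h

lemma jac_sq {p : ℕ} (hp : p.Prime) {x : ℤ} (hx : ¬ (p : ℤ) ∣ x) : jacobiSym (x ^ 2) p = 1 := by
  apply jacobiSym.sq_one'
  rw [← Int.isCoprime_iff_gcd_eq_one]
  exact IsCoprime.symm ((Prime.coprime_iff_not_dvd (Nat.prime_iff_prime_int.1 hp)).2 hx)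

lemma not_mem_cp {c : J → Option (Fin 4)} {j : J} {e : Fin 4} (hc : c j = some e) (he : e ≠ 3) :
    j ∉ fsJ c (cp4 e) := by
  intro h
  rcases mem_fsJ.1 h with h1 | h1
  · rw [hc] at h1
    exact cp4_ne e he (Option.some.inj h1).symm
  · rw [hc] at h1
    exact he (Option.some.inj h1)

lemma kapV_nd {c : J → Option (Fin 4)} {a : Fin 3 → ℤ} {x : J → ℤ} {z : ℕ} (hG : Gd z x)
    (hB : ∀ p : ℕ, p.Prime → z < p → ∀ k, ¬ (p : ℤ) ∣ a k) {p : ℕ}
    (hp : p.Prime) (hz : z < p) {j : J} (hj : (p : ℤ) ∣ x j) (k : Fin 3) :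
    ¬ (p : ℤ) ∣ kapV c a x j k := by
  have hpi : Prime (p : ℤ) := Nat.prime_iff_prime_int.1 hp
  rcases hc : c j with _ | e
  · have h1 : kapV c a x j k = 1 := by unfold kapV; rw [hc]
    rw [h1]
    intro h
    exact hpi.not_isUnit (isUnit_of_dvd_one h)
  · by_cases he : e = 3
    · have h1 : kapV c a x j k = a k * ∏ l ∈ (fsJ c k).erase j, x l := by
        unfold kapV; rw [hc]; exact if_pos he
      rw [h1]
      exact ndV hG hB hp hz hj (notMem_erase _ _)
    · have h1 : kapV c a x j k = sg4 e * (a (cp4 e) * ∏ l ∈ fsJ c (cp4 e), x l) := by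
        unfold kapV; rw [hc]; exact if_neg he
      rw [h1]
      intro h
      have h2 : (p : ℤ) ∣ a (cp4 e) * ∏ l ∈ fsJ c (cp4 e), x l := by
        have h3 := h.mul_left (sg4 e)
        rwa [← mul_assoc, sg4_sq, one_mul] at h3
      exact ndV hG hB hp hz hj (not_mem_cp hc he) h2

lemma symbV {c : J → Option (Fin 4)} {a : Fin 3 → ℤ} {x : J → ℤ} {z : ℕ} (hG : Gd z x)
    (hB : ∀ p : ℕ, p.Prime → z < p → ∀ k, ¬ (p : ℤ) ∣ a k) {p : ℕ}
    (hp : p.Prime) (hz : z < p) {j : J} (hj : (p : ℤ) ∣ x j) {e : Fin 4} (hc : c j = some e)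
    (he : e ≠ 3) (k : Fin 3) :
    jacobiSym (kapV c a x j k * (sg4 e * FV c a x (cp4 e))) p = 1 := by
  have hF : ¬ (p : ℤ) ∣ FV c a x (cp4 e) := ndV hG hB hp hz hj (not_mem_cp hc he)
  have h1 : kapV c a x j k * (sg4 e * FV c a x (cp4 e)) = (FV c a x (cp4 e)) ^ 2 := by
    have h2 : kapV c a x j k = sg4 e * FV c a x (cp4 e) := by
      unfold kapV FV; rw [hc]; exact if_neg he
    rw [h2]
    linear_combination (FV c a x (cp4 e)) ^ 2 * sg4_sq e
  rw [h1]
  exact jac_sq hp hF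

lemma symbV' {c : J → Option (Fin 4)} {a : Fin 3 → ℤ} {x : J → ℤ} {z : ℕ} (hG : Gd z x)
    (hB : ∀ p : ℕ, p.Prime → z < p → ∀ k, ¬ (p : ℤ) ∣ a k) {p : ℕ}
    (hp : p.Prime) (hz : z < p) {j : J} (hj : (p : ℤ) ∣ x j) (hc : c j = some 3) (k : Fin 3) :
    jacobiSym (kapV c a x j k * (FV c a x k / p)) p = jacobiSym (x j / p) p := by
  have hpi : Prime (p : ℤ) := Nat.prime_iff_prime_int.1 hp
  have hp0 : (p : ℤ) ≠ 0 := hpi.ne_zero
  have hk : j ∈ fsJ c k := mem_fsJ.2 (Or.inr hc)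
  have hnd : ¬ (p : ℤ) ∣ a k * ∏ l ∈ (fsJ c k).erase j, x l :=
    ndV hG hB hp hz hj (notMem_erase _ _)
  obtain ⟨q, hq⟩ := hj
  have e1 : FV c a x k / p = q * (a k * ∏ l ∈ (fsJ c k).erase j, x l) := by
    rw [FV_split hk, hq, mul_assoc, Int.mul_ediv_cancel_left _ hp0]
  have e2 : x j / p = q := by rw [hq, Int.mul_ediv_cancel_left _ hp0]
  have e3 : kapV c a x j k = a k * ∏ l ∈ (fsJ c k).erase j, x l := by
    unfold kapV; rw [hc]; exact if_pos rfl
  rw [e1, e2, e3]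
  have h1 : (a k * ∏ l ∈ (fsJ c k).erase j, x l) * (q * (a k * ∏ l ∈ (fsJ c k).erase j, x l)) =
      q * (a k * ∏ l ∈ (fsJ c k).erase j, x l) ^ 2 := by ring
  rw [h1, jacobiSym.mul_left, jac_sq hp hnd, mul_one]

/-- the local hypotheses hold -/
lemma locHV {c : J → Option (Fin 4)} {a : Fin 3 → ℤ} {x : J → ℤ} {z : ℕ} (hG : Gd z x)
    (hB : ∀ p : ℕ, p.Prime → z < p → ∀ k, ¬ (p : ℤ) ∣ a k) {p : ℕ}
    (hp : p.Prime) (hz : z < p) {j : J} {e : Fin 4} (hc : c j = some e)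
    (hF : FV c a x 0 - FV c a x 1 = FV c a x 2) (hj : (p : ℤ) ∣ x j)
    (hj2 : ¬ (p : ℤ) ^ 2 ∣ x j) {neg : Bool}
    (hneg : e = 3 → (neg = true ↔ jacobiSym (x j / p) p = -1)) :
    LocH e (kapV c a x j) neg p (FV c a x 0) (FV c a x 1) := by
  have hpi : Prime (p : ℤ) := Nat.prime_iff_prime_int.1 hp
  have hd : ∀ k, j ∈ fsJ c k → (p : ℤ) ∣ FV c a x k ∧ ¬ (p : ℤ) ^ 2 ∣ FV c a x k :=
    fun k hk => dV hG hB hp hz hj hj2 hk
  have hn : ∀ k, j ∉ fsJ c k → ¬ (p : ℤ) ∣ FV c a x k := fun k hk => ndV hG hB hp hz hj hk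
  have hs := fun h3 : e ≠ 3 => symbV (a := a) hG hB hp hz hj hc h3 0
  have hmem : ∀ k : Fin 3, j ∈ fsJ c k ↔ (e = k.castSucc ∨ e = 3) := fun k => by
    rw [mem_fsJ, hc, Option.some_inj, Option.some_inj]
  have hcase : e = 0 ∨ e = 1 ∨ e = 2 ∨ e = 3 :=
    (by decide : ∀ e : Fin 4, e = 0 ∨ e = 1 ∨ e = 2 ∨ e = 3) e
  unfold LocH
  rcases hcase with h | h | h | h
  · rw [if_pos h]
    have h1 := hd 0 ((hmem 0).2 (Or.inl (by rw [h]; rfl)))
    have h2 := hn 1 (fun h3 => by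
      rcases (hmem 1).1 h3 with h4 | h4 <;> rw [h] at h4 <;> exact absurd h4 (by decide))
    have h3 := hs (by rw [h]; decide)
    rw [h, show sg4 0 = -1 from rfl, show cp4 0 = 1 from rfl, neg_one_mul] at h3
    exact ⟨h1.1, h1.2, h2, h3⟩
  · rw [if_neg (by rw [h]; decide), if_pos h]
    have h1 := hd 1 ((hmem 1).2 (Or.inl (by rw [h]; rfl)))
    have h2 := hn 0 (fun h3 => by
      rcases (hmem 0).1 h3 with h4 | h4 <;> rw [h] at h4 <;> exact absurd h4 (by decide))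
    have h3 := hs (by rw [h]; decide)
    rw [h, show sg4 1 = -1 from rfl, show cp4 1 = 0 from rfl, neg_one_mul] at h3
    exact ⟨h1.1, h1.2, h2, h3⟩
  · rw [if_neg (by rw [h]; decide), if_neg (by rw [h]; decide), if_pos h]
    have h1 := hd 2 ((hmem 2).2 (Or.inl (by rw [h]; rfl)))
    have h2 := hn 0 (fun h3 => by
      rcases (hmem 0).1 h3 with h4 | h4 <;> rw [h] at h4 <;> exact absurd h4 (by decide))
    have h3 := hs (by rw [h]; decide)
    rw [h, show sg4 2 = 1 from rfl, show cp4 2 = 0 from rfl, one_mul] at h3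
    rw [hF]
    exact ⟨h1.1, h1.2, h2, h3⟩
  · rw [if_neg (by rw [h]; decide), if_neg (by rw [h]; decide), if_neg (by rw [h]; decide)]
    have h0 := hd 0 ((hmem 0).2 (Or.inr h))
    have h1 := hd 1 ((hmem 1).2 (Or.inr h))
    have h2 := hd 2 ((hmem 2).2 (Or.inr h))
    have hs' := fun k : Fin 3 => symbV' (a := a) hG hB hp hz hj (h ▸ hc) k
    have hJ : jacobiSym (x j / p) p = if neg = true then -1 else 1 := by
      split_ifs with h5
      · exact (hneg h).1 h5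
      · have h6 : jacobiSym (x j / p) p ≠ -1 := fun h7 => h5 ((hneg h).2 h7)
        have h7 : (x j / p).gcd p = 1 := by
          rw [← Int.isCoprime_iff_gcd_eq_one]
          refine IsCoprime.symm ((Prime.coprime_iff_not_dvd hpi).2 fun h8 => hj2 ?_)
          obtain ⟨q, hq⟩ := hj
          rw [hq, Int.mul_ediv_cancel_left _ hpi.ne_zero] at h8
          rw [hq, pow_two]
          exact mul_dvd_mul_left _ h8
        rcases jacobiSym.eq_one_or_neg_one h7 with h8 | h8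
        · exact h8
        · exact absurd h8 h6
    refine ⟨h0.1, h1.1, h0.2, h1.2, ?_, ?_, ?_, ?_⟩
    · rw [hF]; exact h2.2
    · rw [hs' 0, hJ]
    · rw [hs' 1, hJ]
    · rw [hF, hs' 2, hJ]

/-- the number of the primes outside `S1` -/
lemma badV {c : J → Option (Fin 4)} {a : Fin 3 → ℤ} {x : J → ℤ} {z y X K D : ℕ} (hz2 : 2 ≤ z)
    (hG : Gd z x) (hB : ∀ p : ℕ, p.Prime → z < p → ∀ k, ¬ (p : ℤ) ∣ a k) (hy : 1 ≤ y)
    (hb : ∀ j, (x j).natAbs ≤ X ^ D) (hK : X < (y + 1) ^ K) :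
    ((2 * FV c a x 0 * FV c a x 1 * FV c a x 2).natAbs.primeFactors.filter
        (fun q => ¬ q ∣ ∏ j ∈ univ.filter (fun j => c j ≠ none), S1 z y x j)).card ≤
      z + Fintype.card J * (D * K) + ∑ j, (S2 z y x j).primeFactors.card := by
  have h0 := hG.1
  have hsub : ((2 * FV c a x 0 * FV c a x 1 * FV c a x 2).natAbs.primeFactors.filter
      (fun q => ¬ q ∣ ∏ j ∈ univ.filter (fun j => c j ≠ none), S1 z y x j)) ⊆
      ((Icc 1 z) ∪ univ.biUnion (fun j => (x j).natAbs.primeFactors.filter (y < ·))) ∪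
        univ.biUnion (fun j => (S2 z y x j).primeFactors) := by
    intro q hq
    rw [mem_filter] at hq
    have hp := Nat.prime_of_mem_primeFactors hq.1
    have hdv := Nat.dvd_of_mem_primeFactors hq.1
    rw [mem_union, mem_union, mem_Icc]
    rcases Nat.lt_or_ge z q with h | h
    swap
    · exact Or.inl (Or.inl ⟨hp.one_lt.le, h⟩)
    · have hqi : Prime (q : ℤ) := Nat.prime_iff_prime_int.1 hp
      have hdv2 : (q : ℤ) ∣ 2 * FV c a x 0 * FV c a x 1 * FV c a x 2 :=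
        Int.natCast_dvd.2 hdv
      have hk : ∃ k, (q : ℤ) ∣ FV c a x k := by
        rcases hqi.dvd_or_dvd hdv2 with h1 | h1
        · rcases hqi.dvd_or_dvd h1 with h2 | h2
          · rcases hqi.dvd_or_dvd h2 with h3 | h3
            · exfalso
              have h4 : q ∣ 2 := by exact_mod_cast h3
              have h5 := Nat.le_of_dvd (by norm_num) h4
              omega
            · exact ⟨0, h3⟩
          · exact ⟨1, h2⟩
        · exact ⟨2, h1⟩
      obtain ⟨k, hk⟩ := hk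
      rcases hqi.dvd_or_dvd hk with h1 | h1
      · exact absurd h1 (hB q hp h k)
      · obtain ⟨l, hlm, hl⟩ := (hqi.dvd_finsetProd_iff _).1 h1
        have hlc : c l ≠ none := by
          rcases mem_fsJ.1 hlm with h2 | h2 <;> rw [h2] <;> simp
        rcases Nat.lt_or_ge y q with hyq | hyq
        · left; right
          rw [mem_biUnion]
          refine ⟨l, mem_univ _, ?_⟩
          rw [mem_filter, Nat.mem_primeFactors]
          exact ⟨⟨hp, Int.natCast_dvd.1 hl, Int.natAbs_ne_zero.2 (h0 l)⟩, hyq⟩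
        · right
          have hPS : q ∈ PS z y := mem_PS.2 ⟨⟨h, hyq⟩, hp⟩
          rw [mem_biUnion]
          refine ⟨l, mem_univ _, ?_⟩
          have hsq : (q : ℤ) ^ 2 ∣ x l := by
            by_contra hcon
            apply hq.2
            refine dvd_trans ?_ (dvd_prod_of_mem _ (mem_filter.2 ⟨mem_univ l, hlc⟩))
            exact dvd_prod_of_mem _ (mem_filter.2 ⟨hPS, hl, hcon⟩)
          rw [Nat.mem_primeFactors]
          refine ⟨hp, dvd_prod_of_mem _ (mem_filter.2 ⟨hPS, hsq⟩), ?_⟩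
          exact prod_ne_zero_iff.2 fun p hp => (mem_PS.1 (mem_filter.1 hp).1).2.ne_zero
  have hone : ∀ j, ((x j).natAbs.primeFactors.filter (y < ·)).card ≤ D * K := by
    intro j
    set S := (x j).natAbs.primeFactors.filter (y < ·) with hS
    have h1 : (y + 1) ^ S.card ≤ ∏ q ∈ S, q :=
      Finset.pow_card_le_prod _ _ _ (fun q hq => by
        have := (mem_filter.1 hq).2
        omega)
    have h2 : ∏ q ∈ S, q ∣ (x j).natAbs :=
      (prod_dvd_prod_of_subset _ _ _ (filter_subset _ _)).trans (Nat.prod_primeFactors_dvd _)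
    have h3 : ∏ q ∈ S, q ≤ (x j).natAbs :=
      Nat.le_of_dvd (Nat.pos_of_ne_zero (Int.natAbs_ne_zero.2 (h0 j))) h2
    have h4 : (y + 1) ^ S.card ≤ (y + 1) ^ (D * K) := by
      calc (y + 1) ^ S.card ≤ X ^ D := h1.trans (h3.trans (hb j))
        _ ≤ ((y + 1) ^ K) ^ D := Nat.pow_le_pow_left hK.le D
        _ = (y + 1) ^ (D * K) := by rw [← pow_mul, mul_comm]
    exact (Nat.pow_le_pow_iff_right (by omega)).1 h4
  refine (card_le_card hsub).trans ((card_union_le _ _).trans (add_le_add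
    ((card_union_le _ _).trans (add_le_add ?_ ?_)) card_biUnion_le))
  · simp
  · refine card_biUnion_le.trans ?_
    refine (sum_le_sum fun j _ => hone j).trans ?_
    rw [sum_const, card_univ, smul_eq_mul]

/-- **StRank** -/
theorem stRank : StRank := by
  classical
  intro J _ _ c a x z y X k D hz2 hG ha hB hF hb hX hy hk E hE
  have hFne : ∀ k, FV c a x k ≠ 0 := fun k =>
    mul_ne_zero (ha k) (prod_ne_zero_iff.2 fun l _ => hG.1 l)
  set s := S1 z y x with hs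
  set m := ∏ j ∈ univ.filter (fun j => c j ≠ none), s j with hm
  set m' := ∏ j, s j with hm'
  have hm0 : m' ≠ 0 := prod_ne_zero_iff.2 fun j _ => S1_ne j
  have hmm : m ∣ m' := prod_dvd_prod_of_subset _ _ _ (filter_subset _ _)
  have hprime : ∀ p : ℕ, p.Prime → p ∣ m → ∃ j e, c j = some e ∧ p ∣ s j := by
    intro p hp h
    obtain ⟨j, hj, hpj⟩ := (hp.prime.dvd_finsetProd_iff _).1 h
    obtain ⟨e, he⟩ := Option.ne_none_iff_exists'.1 (mem_filter.1 hj).2
    exact ⟨j, e, he, hpj⟩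
  have hcop : ∀ i j : J, i ≠ j → (s i).Coprime (s j) := by
    intro i j hij
    rw [Nat.coprime_iff_gcd_eq_one]
    by_contra hne
    obtain ⟨p, hp, hpd⟩ := Nat.exists_prime_and_dvd hne
    exact hij (S1_uniq hG hp (hpd.trans (Nat.gcd_dvd_right _ _)) (hpd.trans (Nat.gcd_dvd_left _ _)))
  have hsqf : Squarefree m := by
    rw [hm]
    exact (Finset.squarefree_prod_of_pairwise_isCoprime
      (fun i _ j _ hij => Nat.coprime_iff_isRelPrime.1 (hcop i j hij)) fun i _ => S1_sqf i)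
  have hp2 : ∀ p : ℕ, p.Prime → p ∣ m → p ≠ 2 := by
    intro p hp h
    obtain ⟨j, e, _, hpj⟩ := hprime p hp h
    have h1 := (mem_PS.1 ((S1_dvd_iff hp).1 hpj).1).1.1
    omega
  have hodd : Odd m := by
    rw [← Nat.not_even_iff_odd, even_iff_two_dvd]
    intro h
    exact hp2 2 Nat.prime_two h rfl
  have hd := Pool.Agent.W214.RK2.desc4 m (LLso c (kapV c a x) s E)
    (FV c a x 0) (FV c a x 1) (hFne 0) (hFne 1)
    (fun h => hFne 2 (by rw [← hF, h, sub_self])) hodd hsqf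
    (fun p hp hpd => by
      have hXC : ∀ j, p ∣ s j → XC (LLo (c j) (kapV c a x j) (decide (p ∈ E)) p) := by
        intro j hj
        have hj1 := (S1_dvd_iff hp).1 hj
        rcases hcj : c j with _ | e
        · refine ⟨⟨rfl, rfl⟩, ?_⟩
          rintro a1 b1 c1 d1 a2 b2 c2 d2 ⟨h1, h2⟩ ⟨h3, h4⟩
          refine ⟨?_, ?_⟩
          · rw [h1, h3]; rfl
          · rw [h2, h4]; rfl
        · exact Pool.Agent.W342.RK2.xcl e _ _ p hp (hp2 p hp hpd)
            (fun k => kapV_nd hG hB hp (mem_PS.1 hj1.1).1.1 hj1.2.1 k)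
      exact ⟨fun j hj => (hXC j hj).1, fun a1 b1 c1 d1 a2 b2 c2 d2 e1 e2 j hj =>
        (hXC j hj).2 a1 b1 c1 d1 a2 b2 c2 d2 (e1 j hj) (e2 j hj)⟩)
    (fun p hpf hpd X1 X2 hX2 hcurve e1 e2 he1 he2 hsq1 hsq2 j hj => by
      have hpp : p.Prime := Fact.out
      have hj1 := (S1_dvd_iff hpp).1 hj
      have hzp := (mem_PS.1 hj1.1).1.1
      obtain ⟨l, e, hcl, hpl⟩ := hprime p hpp hpd
      have hlj : l = j := S1_uniq hG hpp hj hpl
      subst hlj
      show LLo (c l) _ _ _ _ _ _ _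
      rw [hcl]
      refine Pool.Agent.W342.RK2.locl e (kapV c a x l) _ p _ _ (hp2 p hpp hpd)
        (fun k => kapV_nd hG hB hpp hzp hj1.2.1 k)
        (locHV hG hB hpp hzp hcl hF hj1.2.1 hj1.2.2 (fun h3 => ?_)) X1 X2 hX2 hcurve e1 e2 he1 he2
        hsq1 hsq2
      rw [decide_eq_true_eq]
      exact hE l p (by rw [hcl, h3]) hpp hj)
  rw [hF] at hd
  have hNL : NL m (LLso c (kapV c a x) s E) ≤ NL m' (LLso c (kapV c a x) s E) := by
    refine NL_le hmm hm0 fun d1 d2 hd1 hd2 hL p hp => ?_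
    have hpp := Nat.prime_of_mem_primeFactors hp
    by_cases hpm : p ∣ m
    · exact hL p (Nat.mem_primeFactors.2 ⟨hpp, hpm, hsqf.ne_zero⟩)
    · have hf : ∀ d : ℕ, d ∣ m → dv p (d : ℤ) = false := by
        intro d hd
        unfold dv
        rw [decide_eq_false_iff_not]
        intro h
        exact hpm ((Int.natCast_dvd_natCast.1 h).trans hd)
      intro j hj
      rcases hcj : c j with _ | e
      · exact ⟨hf d1 hd1, hf d2 hd2⟩
      · exfalso
        apply hpm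
        exact dvd_trans hj (dvd_prod_of_mem _ (mem_filter.2 ⟨mem_univ _, by rw [hcj]; simp⟩))
  refine hd.trans (Nat.mul_le_mul ?_ hNL)
  have hc := badV (c := c) (a := a) (y := y) hz2 hG hB hy hb hk
  rw [← hs, ← hm] at hc
  calc 4 ^ (((2 * FV c a x 0 * FV c a x 1 *
        FV c a x 2).natAbs.primeFactors.filter (fun q => ¬ q ∣ m)).card + 2)
      ≤ 4 ^ ((z + 2) + (Fintype.card J * (D * k)) + ∑ j, (S2 z y x j).primeFactors.card) :=
        Nat.pow_le_pow_right (by norm_num) (by omega)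
    _ = _ := by
        rw [pow_add, pow_add]
        congr 2
        rw [← pow_mul]
        congr 1
        ring

end Pool.Agent.L7h89.RP
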